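import Mathlib

/-!
# Partitions into modules with a prime quotient
-/

set_option autoImplicit false
set_option linter.unusedSectionVars false

namespace Pool.Agent.R553.Mod

open Finset Classical

variable {V : Type} [Fintype V] {ι κ : Type}

/-- the classes of `p` in `U` are modules of the graph induced by `U` -/
def MP (K : SimpleGraph V) (U : Finset V) (p : V → ι) : Prop :=
  ∀ x ∈ U, ∀ y ∈ U, ∀ z ∈ U, p x = p y → p z ≠ p x → (K.Adj z x ↔ K.Adj z y)

/-- the quotient is prime -/
def Pr (K : SimpleGraph V) (U : Finset V) (p : V → ι) : Prop :=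
  ∀ A ⊆ U, (∀ x ∈ A, ∀ y ∈ U, p x = p y → y ∈ A) →
    (∀ x ∈ A, ∀ y ∈ A, ∀ z ∈ U, z ∉ A → (K.Adj z x ↔ K.Adj z y)) →
    (∀ x ∈ A, ∀ y ∈ A, p x = p y) ∨ A = U

/-- at least three classes -/
def Th (U : Finset V) (p : V → ι) : Prop :=
  ∃ a ∈ U, ∃ b ∈ U, ∃ c ∈ U, p a ≠ p b ∧ p a ≠ p c ∧ p b ≠ p c

/-- a partition into at least three modules with a prime quotient -/
structure PM (K : SimpleGraph V) (U : Finset V) (p : V → ι) : Prop where
  mp : MP K U p
  pr : Pr K U p
  th : Th U p

variable {K L : SimpleGraph V} {U : Finset V} {p : V → ι}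

/-- every proper module is contained in a class -/
theorem in_class (h : PM K U p) (N : Finset V) (hN : N ⊆ U)
    (hm : ∀ x ∈ N, ∀ y ∈ N, ∀ z ∈ U, z ∉ N → (K.Adj z x ↔ K.Adj z y))
    (z0 : V) (hz0 : z0 ∈ U) (hz : z0 ∉ N) : ∀ x ∈ N, ∀ y ∈ N, p x = p y := by
  -- the saturation of `N`
  have hA : ∀ x ∈ U.filter (fun x => ∃ y ∈ N, p y = p x), x ∈ U ∧ ∃ y ∈ N, p y = p x :=
    fun x hx => mem_filter.mp hx
  rcases h.pr (U.filter (fun x => ∃ y ∈ N, p y = p x)) (filter_subset _ _)
    (fun x hx y hy hxy => by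
      obtain ⟨_, w, hw, hwx⟩ := hA x hx
      exact mem_filter.mpr ⟨hy, w, hw, hwx.trans hxy⟩)
    (fun x hx y hy z hz hzA => by
      obtain ⟨hxU, x', hx', hpx⟩ := hA x hx
      obtain ⟨hyU, y', hy', hpy⟩ := hA y hy
      have hz1 : ∀ w ∈ N, p z ≠ p w := fun w hw he => hzA (mem_filter.mpr ⟨hz, w, hw, he.symm⟩)
      have hzN : z ∉ N := fun hzN => hz1 z hzN rfl
      have e1 := h.mp x' (hN hx') x hxU z hz hpx (hz1 x' hx')
      have e2 := h.mp y' (hN hy') y hyU z hz hpy (hz1 y' hy')
      exact e1.symm.trans ((hm x' hx' y' hy' z hz hzN).trans e2)) with h1 | h1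
  · intro x hx y hy
    exact h1 x (mem_filter.mpr ⟨hN hx, x, hx, rfl⟩) y (mem_filter.mpr ⟨hN hy, y, hy, rfl⟩)
  · exfalso
    have hall : ∀ x ∈ U, ∃ y ∈ N, p y = p x := fun x hx => (hA x (by rw [h1]; exact hx)).2
    -- the complement of the class of `z0` is a module
    rcases h.pr (U.filter (fun x => p x ≠ p z0)) (filter_subset _ _)
      (fun x hx y hy hxy => by
        rw [mem_filter] at hx ⊢
        exact ⟨hy, fun he => hx.2 (hxy.trans he)⟩)
      (fun x hx y hy z hz' hzB => by
        rw [mem_filter] at hx hy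
        have hpz : p z = p z0 := by
          by_contra hne
          exact hzB (mem_filter.mpr ⟨hz', hne⟩)
        obtain ⟨x', hx', hpx⟩ := hall x hx.1
        obtain ⟨y', hy', hpy⟩ := hall y hy.1
        have nx : p x' ≠ p z0 := fun he => hx.2 (hpx.symm.trans he)
        have ny : p y' ≠ p z0 := fun he => hy.2 (hpy.symm.trans he)
        have e1 := h.mp x' (hN hx') x hx.1 z hz' hpx (by rw [hpz]; exact nx.symm)
        have e2 := h.mp y' (hN hy') y hy.1 z hz' hpy (by rw [hpz]; exact ny.symm)
        have e3 := h.mp z hz' z0 hz0 x' (hN hx') hpz (by rw [hpz]; exact nx)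
        have e4 := h.mp z hz' z0 hz0 y' (hN hy') hpz (by rw [hpz]; exact ny)
        have e5 := hm x' hx' y' hy' z0 hz0 hz
        rw [← e1, ← e2, K.adj_comm z x', K.adj_comm z y', e3, e4, K.adj_comm x' z0,
          K.adj_comm y' z0]
        exact e5) with h2 | h2
    · obtain ⟨a, ha, b, hb, c, hc, hab, hac, hbc⟩ := h.th
      have key : ∀ x ∈ U, ∀ y ∈ U, p x ≠ p z0 → p y ≠ p z0 → p x = p y := fun x hx y hy h3 h4 =>
        h2 x (mem_filter.mpr ⟨hx, h3⟩) y (mem_filter.mpr ⟨hy, h4⟩)
      by_cases h3 : p a = p z0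
      · exact hbc (key b hb c hc (fun h4 => hab (h3.trans h4.symm)) (fun h4 => hac (h3.trans h4.symm)))
      · by_cases h4 : p b = p z0
        · exact hac (key a ha c hc h3 (fun h5 => hbc (h4.trans h5.symm)))
        · exact hab (key a ha b hb h3 h4)
    · have h3 : z0 ∈ U.filter (fun x => p x ≠ p z0) := by rw [h2]; exact hz0
      exact (mem_filter.mp h3).2 rfl

/-- every partition into at least two modules refines the prime one -/
theorem refines (h : PM K U p) (q : V → κ) (hq : MP K U q) (h2 : ∃ a ∈ U, ∃ b ∈ U, q a ≠ q b) :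
    ∀ x ∈ U, ∀ y ∈ U, q x = q y → p x = p y := by
  intro x hx y hy hxy
  obtain ⟨z0, hz0, hz⟩ : ∃ z0 ∈ U, q z0 ≠ q x := by
    obtain ⟨a, ha, b, hb, hab⟩ := h2
    by_cases h3 : q a = q x
    · exact ⟨b, hb, fun h4 => hab (h3.trans h4.symm)⟩
    · exact ⟨a, ha, h3⟩
  refine in_class h (U.filter (fun y => q y = q x)) (filter_subset _ _) ?_ z0 hz0
    (fun h3 => hz (mem_filter.mp h3).2) x (mem_filter.mpr ⟨hx, rfl⟩) y
    (mem_filter.mpr ⟨hy, hxy.symm⟩)
  intro a ha b hb z hz1 hz2
  rw [mem_filter] at ha hb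
  exact hq a ha.1 b hb.1 z hz1 (ha.2.trans hb.2.symm)
    (fun h3 => hz2 (mem_filter.mpr ⟨hz1, h3.trans ha.2⟩))

/-- deletion of a point whose class has another point -/
theorem PM.del (h : PM K U p) (v v' : V) (hv : v ∈ U) (hv' : v' ∈ U) (hne : v' ≠ v)
    (hp : p v' = p v) : PM K (U.erase v) p := by
  refine ⟨?_, ?_, ?_⟩
  · intro x hx y hy z hz
    exact h.mp x (mem_of_mem_erase hx) y (mem_of_mem_erase hy) z (mem_of_mem_erase hz)
  · intro A hA hsat hmod
    have hvA : v ∉ A := fun h1 => (mem_erase.mp (hA h1)).1 rfl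
    by_cases hc : v' ∈ A
    · -- add `v`
      have key := h.pr (insert v A) (by
          intro x hx
          rcases mem_insert.mp hx with rfl | hx
          · exact hv
          · exact mem_of_mem_erase (hA hx))
        (by
          intro x hx y hy hxy
          by_cases hyv : y = v
          · rw [hyv]; exact mem_insert_self _ _
          · apply mem_insert_of_mem
            rcases mem_insert.mp hx with rfl | hx
            · exact hsat v' hc y (mem_erase.mpr ⟨hyv, hy⟩) (hp.trans hxy)
            · exact hsat x hx y (mem_erase.mpr ⟨hyv, hy⟩) hxy)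
        (by
          intro x hx y hy z hz hzA
          have hzv : z ≠ v := fun he => hzA (he ▸ mem_insert_self _ _)
          have hzA' : z ∉ A := fun he => hzA (mem_insert_of_mem he)
          have hzU := mem_erase.mpr ⟨hzv, hz⟩
          have hpz : p z ≠ p v := by
            intro he
            exact hzA' (hsat v' hc z hzU (hp.trans he.symm))
          have e0 : K.Adj z v ↔ K.Adj z v' := h.mp v hv v' hv' z hz hp.symm hpz
          have red : ∀ w ∈ insert v A, (K.Adj z w ↔ K.Adj z v') := by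
            intro w hw
            rcases mem_insert.mp hw with rfl | hw
            · exact e0
            · exact hmod w hw v' hc z hzU hzA'
          exact (red x hx).trans (red y hy).symm)
      rcases key with h1 | h1
      · left
        intro x hx y hy
        exact h1 x (mem_insert_of_mem hx) y (mem_insert_of_mem hy)
      · right
        rw [← h1, erase_insert hvA]
    · have key := h.pr A (fun x hx => mem_of_mem_erase (hA hx))
        (by
          intro x hx y hy hxy
          by_cases hyv : y = v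
          · exfalso
            apply hc
            apply hsat x hx v' (mem_erase.mpr ⟨hne, hv'⟩)
            rw [hxy, hyv, hp]
          · exact hsat x hx y (mem_erase.mpr ⟨hyv, hy⟩) hxy)
        (by
          intro x hx y hy z hz hzA
          by_cases hzv : z = v
          · subst hzv
            have hpx : ∀ w ∈ A, p w ≠ p z := by
              intro w hw he
              exact hc (hsat w hw v' (mem_erase.mpr ⟨hne, hv'⟩) (he.trans hp.symm))
            have e1 : ∀ w ∈ A, (K.Adj z w ↔ K.Adj v' w) := by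
              intro w hw
              have := h.mp z hv v' hv' w (mem_of_mem_erase (hA hw)) hp.symm (hpx w hw)
              rw [K.adj_comm z w, K.adj_comm v' w]
              exact this
            rw [e1 x hx, e1 y hy]
            exact hmod x hx y hy v' (mem_erase.mpr ⟨hne, hv'⟩) hc
          · exact hmod x hx y hy z (mem_erase.mpr ⟨hzv, hz⟩) hzA)
      rcases key with h1 | h1
      · exact Or.inl h1
      · exact absurd (h1 ▸ hv) hvA
  · obtain ⟨a, ha, b, hb, c, hc, hab, hac, hbc⟩ := h.th
    have rep : ∀ a ∈ U, ∃ a' ∈ U.erase v, p a' = p a := by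
      intro a ha
      by_cases hav : a = v
      · exact ⟨v', mem_erase.mpr ⟨hne, hv'⟩, by rw [hp, hav]⟩
      · exact ⟨a, mem_erase.mpr ⟨hav, ha⟩, rfl⟩
    obtain ⟨a', ha', ea⟩ := rep a ha
    obtain ⟨b', hb', eb⟩ := rep b hb
    obtain ⟨c', hc', ec⟩ := rep c hc
    exact ⟨a', ha', b', hb', c', hc', by rw [ea, eb]; exact hab, by rw [ea, ec]; exact hac,
      by rw [eb, ec]; exact hbc⟩

/-- transport along a permutation -/
theorem PM.map (h : PM K U p) (σ : Equiv.Perm V) (U' : Finset V) (hU : ∀ x, σ x ∈ U' ↔ x ∈ U)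
    (hadj : ∀ x ∈ U, ∀ y ∈ U, (L.Adj (σ x) (σ y) ↔ K.Adj x y)) :
    PM L U' (fun x => p (σ.symm x)) := by
  have hU' : ∀ x, σ.symm x ∈ U ↔ x ∈ U' := fun x => by
    rw [← hU, Equiv.apply_symm_apply]
  have hadj' : ∀ x ∈ U', ∀ y ∈ U', (L.Adj x y ↔ K.Adj (σ.symm x) (σ.symm y)) := by
    intro x hx y hy
    have := hadj (σ.symm x) ((hU' x).mpr hx) (σ.symm y) ((hU' y).mpr hy)
    rwa [Equiv.apply_symm_apply, Equiv.apply_symm_apply] at this
  refine ⟨?_, ?_, ?_⟩
  · intro x hx y hy z hz hxy hzx
    rw [hadj' z hz x hx, hadj' z hz y hy]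
    exact h.mp _ ((hU' x).mpr hx) _ ((hU' y).mpr hy) _ ((hU' z).mpr hz) hxy hzx
  · intro A hA hsat hmod
    have hmem : ∀ x, σ.symm x ∈ A.image σ.symm ↔ x ∈ A := by
      intro x
      rw [mem_image]
      constructor
      · rintro ⟨y, hy, he⟩
        rwa [← σ.symm.injective he]
      · intro hx
        exact ⟨x, hx, rfl⟩
    have hmem2 : ∀ x, x ∈ A.image σ.symm ↔ σ x ∈ A := by
      intro x
      rw [← hmem (σ x), Equiv.symm_apply_apply]
    rcases h.pr (A.image σ.symm)
      (by
        intro x hx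
        rw [hmem2] at hx
        exact (hU x).mp (hA hx))
      (by
        intro x hx y hy hxy
        rw [hmem2] at hx ⊢
        apply hsat (σ x) hx (σ y) ((hU y).mpr hy)
        simpa using hxy)
      (by
        intro x hx y hy z hz hzA
        rw [hmem2] at hx hy hzA
        have := hmod (σ x) hx (σ y) hy (σ z) ((hU z).mpr hz) hzA
        rwa [hadj z hz x ((hU x).mp (hA hx)), hadj z hz y ((hU y).mp (hA hy))] at this)
      with h1 | h1
    · left
      intro x hx y hy
      exact h1 _ ((hmem x).mpr hx) _ ((hmem y).mpr hy)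
    · right
      ext x
      rw [← hmem x, h1]
      exact hU' x
  · obtain ⟨a, ha, b, hb, c, hc, hab, hac, hbc⟩ := h.th
    refine ⟨σ a, (hU a).mpr ha, σ b, (hU b).mpr hb, σ c, (hU c).mpr hc, ?_, ?_, ?_⟩ <;>
      simpa using (by assumption)

end Pool.Agent.R553.Mod
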