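import Pool.Agent.H234RC.T1

/-!
# Truncated clique lattices and graphs
-/

set_option autoImplicit false

namespace Pool.Agent.R553.Mod

open Finset
open Pool.Agent.H234RC

section

variable {V W : Type}

/-- singleton element -/
def sl (G : SimpleGraph V) (x : V) : TLat G := ⟨{x}, singleton_nonempty _, by simp⟩

theorem sl_le (G : SimpleGraph V) (x : V) (t : TLat G) : sl G x ≤ t ↔ x ∈ t.1 := by
  rw [← Subtype.coe_le_coe]
  show ({x} : Finset V) ⊆ t.1 ↔ _
  rw [singleton_subset_iff]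

theorem sl_min (G : SimpleGraph V) (x : V) : IsMin (sl G x) := by
  intro t ht
  have ht' : t.1 ⊆ {x} := ht
  obtain ⟨y, hy⟩ := t.2.1
  have := mem_singleton.mp (ht' hy)
  rw [sl_le, ← this]; exact hy

theorem exists_sl_of_min (G : SimpleGraph V) (s : TLat G) (hs : IsMin s) : ∃ x, sl G x = s := by
  obtain ⟨x, hx⟩ := s.2.1
  have h1 : sl G x ≤ s := (sl_le G x s).2 hx
  exact ⟨x, le_antisymm h1 (hs h1)⟩

theorem sl_inj (G : SimpleGraph V) : Function.Injective (sl G) := by
  intro x y h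
  have := congrArg (fun s : TLat G => s.1) h
  exact singleton_injective this

theorem sl_adj_iff (G : SimpleGraph V) (x y : V) :
    G.Adj x y ↔ x ≠ y ∧ ∃ t : TLat G, sl G x ≤ t ∧ sl G y ≤ t := by
  classical
  constructor
  · intro h
    refine ⟨h.ne, ⟨⟨{x, y}, ⟨x, by simp⟩, ?_⟩, ?_, ?_⟩⟩
    · rw [coe_insert, coe_singleton, SimpleGraph.isClique_pair]
      exact fun _ => h
    · rw [sl_le]; simp
    · rw [sl_le]; simp
  · rintro ⟨hne, t, h1, h2⟩
    rw [sl_le] at h1 h2
    exact t.2.2 h1 h2 hne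

theorem tlat_iso (G : SimpleGraph V) (H : SimpleGraph W) (h : Nonempty (TLat G ≃o TLat H)) :
    ∃ e : V ≃ W, ∀ x y, H.Adj (e x) (e y) ↔ G.Adj x y := by
  obtain ⟨Φ⟩ := h
  have h1 : ∀ x, ∃ y, sl H y = Φ (sl G x) := fun x =>
    exists_sl_of_min H _ ((Φ.isMin_apply).2 (sl_min G x))
  have h2 : ∀ y, ∃ x, sl G x = Φ.symm (sl H y) := fun y =>
    exists_sl_of_min G _ ((Φ.symm.isMin_apply).2 (sl_min H y))
  choose f hf using h1
  have hinj : Function.Injective f := by
    intro a b hab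
    apply sl_inj G
    apply Φ.injective
    rw [← hf, ← hf, hab]
  have hsurj : Function.Surjective f := by
    intro y
    obtain ⟨x, hx⟩ := h2 y
    refine ⟨x, sl_inj H ?_⟩
    rw [hf, hx, Φ.apply_symm_apply]
  refine ⟨Equiv.ofBijective f ⟨hinj, hsurj⟩, fun x y => ?_⟩
  show H.Adj (f x) (f y) ↔ _
  rw [sl_adj_iff, sl_adj_iff]
  constructor
  · rintro ⟨hne, t, ht1, ht2⟩
    refine ⟨fun e => hne (by rw [e]), Φ.symm t, ?_, ?_⟩
    · rw [← Φ.symm_apply_apply (sl G x)]
      rw [← hf x]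
      exact Φ.symm.monotone ht1
    · rw [← Φ.symm_apply_apply (sl G y)]
      rw [← hf y]
      exact Φ.symm.monotone ht2
  · rintro ⟨hne, t, ht1, ht2⟩
    refine ⟨fun e => hne (hinj e), Φ t, ?_, ?_⟩
    · rw [hf]; exact Φ.monotone ht1
    · rw [hf]; exact Φ.monotone ht2

theorem card_of_perm (G H : SimpleGraph V) (v : V) (e : Equiv.Perm V) (hv : e v = v)
    (he : ∀ x y, x ≠ v → y ≠ v → (H.Adj (e x) (e y) ↔ G.Adj x y)) :
    Nonempty (TCard G v ≃o TCard H v) := by
  have hcl : ∀ s : Finset V, v ∉ s → G.IsClique (s : Set V) →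
      H.IsClique ((s.map e.toEmbedding : Finset V) : Set V) := by
    intro s hvs hs a ha b hb hab
    rw [mem_coe, mem_map] at ha hb
    obtain ⟨x, hx, rfl⟩ := ha
    obtain ⟨y, hy, rfl⟩ := hb
    exact (he x y (fun h => hvs (h ▸ hx)) (fun h => hvs (h ▸ hy))).2
      (hs hx hy (fun h => hab (by rw [h])))
  have hcl' : ∀ s : Finset V, v ∉ s → H.IsClique (s : Set V) →
      G.IsClique ((s.map e.symm.toEmbedding : Finset V) : Set V) := by
    intro s hvs hs a ha b hb hab
    rw [mem_coe, mem_map] at ha hb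
    obtain ⟨x, hx, rfl⟩ := ha
    obtain ⟨y, hy, rfl⟩ := hb
    have h1 := hs hx hy (fun h => hab (by rw [h]))
    have hxv : e.symm x ≠ v := by
      intro h
      rw [Equiv.symm_apply_eq, hv] at h
      exact hvs (h ▸ hx)
    have hyv : e.symm y ≠ v := by
      intro h
      rw [Equiv.symm_apply_eq, hv] at h
      exact hvs (h ▸ hy)
    have h2 := he (e.symm x) (e.symm y) hxv hyv
    rw [Equiv.apply_symm_apply, Equiv.apply_symm_apply] at h2
    exact h2.mp h1
  have hv1 : ∀ s : Finset V, v ∉ s → v ∉ s.map e.toEmbedding := by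
    intro s hs h
    obtain ⟨x, hx, hxe⟩ := mem_map.mp h
    have : x = v := e.injective (hxe.trans hv.symm)
    exact hs (this ▸ hx)
  have hv2 : ∀ s : Finset V, v ∉ s → v ∉ s.map e.symm.toEmbedding := by
    intro s hs h
    obtain ⟨x, hx, hxe⟩ := mem_map.mp h
    have : x = v := by
      have h3 : e.symm x = v := hxe
      rw [Equiv.symm_apply_eq, hv] at h3
      exact h3
    exact hs (this ▸ hx)
  refine ⟨⟨⟨fun s => ⟨s.1.map e.toEmbedding, s.2.1.map, hcl _ s.2.2.2 s.2.2.1, hv1 _ s.2.2.2⟩,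
    fun s => ⟨s.1.map e.symm.toEmbedding, s.2.1.map, hcl' _ s.2.2.2 s.2.2.1, hv2 _ s.2.2.2⟩,
    ?_, ?_⟩, ?_⟩⟩
  · intro s
    apply Subtype.ext
    show (s.1.map e.toEmbedding).map e.symm.toEmbedding = s.1
    ext x
    simp
  · intro s
    apply Subtype.ext
    show (s.1.map e.symm.toEmbedding).map e.toEmbedding = s.1
    ext x
    simp
  · intro s t
    show s.1.map e.toEmbedding ⊆ t.1.map e.toEmbedding ↔ s.1 ⊆ t.1
    rw [map_subset_map]

/-- a graph hypomorphic to a reconstructible one is isomorphic to it -/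
theorem iso_of_rec [Fintype V] {G H : SimpleGraph V} {π : V → Equiv.Perm V}
    (hG : Reconstructible G) (hH : Hypo G H π) :
    ∃ σ : Equiv.Perm V, ∀ x y, H.Adj (σ x) (σ y) ↔ G.Adj x y :=
  tlat_iso G H (hG V H ⟨Equiv.refl V, fun v => card_of_perm G H v (π v) (hH.fix v) (hH.adj v)⟩)

end

end Pool.Agent.R553.Mod
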