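import Pool.Agent.R553.Mod.Hyp
import Pool.Agent.TH87.RVM.Ty

/-!
# Hypomorphic graphs with corresponding partitions into modules are isomorphic
-/

set_option autoImplicit false
set_option linter.unusedSectionVars false

namespace Pool.Agent.R553.Mod

open Finset Classical
open Pool.Agent.H234RC (Hypo NonIso Reconstructible)
open Pool.Agent.TH87.RVM (Rl Ty ty ty_eq ty_map)

variable {V : Type} [Fintype V] {ι κ : Type}

/-- the class of `x` -/
noncomputable def cc (p : V → ι) (x : V) : Finset V := univ.filter (fun y => p y = p x)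

theorem mem_cc (p : V → ι) (x y : V) : y ∈ cc p x ↔ p y = p x := by
  unfold cc
  rw [mem_filter]
  simp

theorem cc_self (p : V → ι) (x : V) : x ∈ cc p x := (mem_cc p x x).mpr rfl

theorem cc_congr (p : V → ι) {x y : V} (h : p x = p y) : cc p x = cc p y := by
  ext z
  rw [mem_cc, mem_cc, h]

theorem cc_pos (p : V → ι) (x : V) : 0 < (cc p x).card := card_pos.mpr ⟨x, cc_self p x⟩

variable {G H : SimpleGraph V} {π : V → Equiv.Perm V} {p : V → ι} {q : V → κ}

theorem map_erase (h : Setup G H π p q) (v x : V) (hx : x ≠ v) :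
    ((cc p x).erase v).map (π v).toEmbedding = (cc q (π v x)).erase v := by
  ext y
  rw [mem_map, mem_erase, mem_cc]
  constructor
  · rintro ⟨z, hz, rfl⟩
    rw [mem_erase, mem_cc] at hz
    exact ⟨(hypo_ne h.hyp v z).mpr hz.1, (h.cls v z x hz.1 hx).mpr hz.2⟩
  · rintro ⟨h1, h2⟩
    refine ⟨(π v).symm y, ?_, by simp⟩
    have h3 := (hypo_symm_ne h.hyp v y).mpr h1
    rw [mem_erase, mem_cc]
    refine ⟨h3, (h.cls v _ x h3 hx).mp ?_⟩
    rw [Equiv.apply_symm_apply]
    exact h2

theorem card_map_erase (h : Setup G H π p q) (v x : V) (hx : x ≠ v) :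
    ((cc q (π v x)).erase v).card = ((cc p x).erase v).card := by
  rw [← map_erase h v x hx, card_map]

theorem ty_erase (h : Setup G H π p q) (v : V) (S : Finset V) (hS : v ∉ S) :
    ty (S.map (π v).toEmbedding) H.Adj = ty S G.Adj := by
  refine ty_map G.Adj H.Adj (univ.erase v) (π v) ?_ S ?_
  · intro x hx y hy
    exact h.hyp.adj v x y (mem_erase.mp hx).1 (mem_erase.mp hy).1
  · intro x hx
    exact mem_erase.mpr ⟨fun he => hS (he ▸ hx), mem_univ _⟩

theorem ty_map_erase (h : Setup G H π p q) (v x : V) (hx : x ≠ v) :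
    ty ((cc q (π v x)).erase v) H.Adj = ty ((cc p x).erase v) G.Adj := by
  rw [← map_erase h v x hx]
  exact ty_erase h v _ (notMem_erase _ _)

theorem min_le (h : Setup G H π p q) {m : ℕ} (hm : ∀ x, m ≤ (cc p x).card) (y : V) :
    m ≤ (cc q y).card := by
  obtain ⟨y', h1, h2⟩ := h.twoH y
  have h3 : (π y).symm y' ≠ y := (hypo_symm_ne h.hyp y y').mpr h1
  have h4 := card_map_erase h y _ h3
  rw [Equiv.apply_symm_apply, card_erase_of_mem ((mem_cc q _ _).mpr h2.symm), cc_congr q h2] at h4
  have h5 : (cc p ((π y).symm y')).card - 1 ≤ ((cc p ((π y).symm y')).erase y).card :=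
    pred_card_le_card_erase
  have h6 := hm ((π y).symm y')
  have h7 := cc_pos q y
  omega

theorem min_cls (h : Setup G H π p q) {m : ℕ} (hm : ∀ x, m ≤ (cc p x).card) (v : V)
    (hv : (cc p v).card = m) :
    (cc q v).card = m ∧ ∀ x, x ≠ v → (p x = p v ↔ q (π v x) = q v) := by
  obtain ⟨v', h1, h2⟩ := h.twoG v
  have h3 := card_map_erase h v v' h1
  rw [card_erase_of_mem ((mem_cc p _ _).mpr h2.symm), cc_congr p h2, hv] at h3
  have h4 := min_le h hm (π v v')
  have h5 := cc_pos p v
  have h6 : v ∈ cc q (π v v') := by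
    by_contra hcon
    rw [erase_eq_of_notMem hcon] at h3
    omega
  have h7 : q v = q (π v v') := (mem_cc q _ _).mp h6
  rw [card_erase_of_mem h6, ← cc_congr q h7] at h3
  have h8 := cc_pos q v
  refine ⟨by omega, fun x hx => ?_⟩
  rw [← h2, h7]
  exact (h.cls v x v' hx h1).symm

/-- isomorphic smallest classes -/
theorem iso_of_ty (h : Setup G H π p q) {m : ℕ} (hm : ∀ x, m ≤ (cc p x).card) (v : V)
    (hv : (cc p v).card = m) (ht : ty (cc p v) G.Adj = ty (cc q v) H.Adj) :
    ∃ σ : Equiv.Perm V, ∀ x y, H.Adj (σ x) (σ y) ↔ G.Adj x y := by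
  obtain ⟨_, hcl⟩ := min_cls h hm v hv
  obtain ⟨f, h1, h2, h3⟩ := (ty_eq _ _ _ _).mp ht
  simp only at h1 h2 h3
  obtain ⟨v', hv1, hv2⟩ := h.twoG v
  have hf : ∀ x, p x = p v → q (f x) = q v := by
    intro x hx
    have : f x ∈ cc q v := by
      rw [← h2]
      exact mem_image_of_mem f ((mem_cc p _ _).mpr hx)
    exact (mem_cc q _ _).mp this
  have hπ : ∀ x, p x ≠ p v → q (π v x) ≠ q v := by
    intro x hx he
    have hxv : x ≠ v := fun h4 => hx (by rw [h4])
    exact hx ((hcl x hxv).mpr he)
  have hinj : Function.Injective (fun x => if p x = p v then f x else π v x) := by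
    intro x y hxy
    simp only at hxy
    by_cases hx : p x = p v
    · rw [if_pos hx] at hxy
      by_cases hy : p y = p v
      · rw [if_pos hy] at hxy
        exact h1 x ((mem_cc p _ _).mpr hx) y ((mem_cc p _ _).mpr hy) hxy
      · rw [if_neg hy] at hxy
        exact absurd (by rw [← hxy]; exact hf x hx) (hπ y hy)
    · rw [if_neg hx] at hxy
      by_cases hy : p y = p v
      · rw [if_pos hy] at hxy
        exact absurd (by rw [hxy]; exact hf y hy) (hπ x hx)
      · rw [if_neg hy] at hxy
        exact (π v).injective hxy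
  have cross : ∀ x y, p x ≠ p v → p y = p v → (H.Adj (π v x) (f y) ↔ G.Adj x y) := by
    intro x y hx hy
    have hxv : x ≠ v := fun h4 => hx (by rw [h4])
    have e1 : G.Adj x y ↔ G.Adj x v' := h.mpG y (mem_univ _) v' (mem_univ _) x (mem_univ _)
      (hy.trans hv2.symm) (by rw [hy]; exact hx)
    have e2 := h.hyp.adj v x v' hxv hv1
    have hq : q (π v v') = q v := (hcl v' hv1).mp hv2
    have e3 : H.Adj (π v x) (f y) ↔ H.Adj (π v x) (π v v') :=
      h.mpH (f y) (mem_univ _) (π v v') (mem_univ _) (π v x) (mem_univ _)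
        ((hf y hy).trans hq.symm) (by rw [hf y hy]; exact hπ x hx)
    rw [e3, e2, e1]
  refine ⟨Equiv.ofBijective _ (Finite.injective_iff_bijective.mp hinj), fun x y => ?_⟩
  show H.Adj (if p x = p v then f x else π v x) (if p y = p v then f y else π v y) ↔ G.Adj x y
  by_cases hx : p x = p v
  · rw [if_pos hx]
    by_cases hy : p y = p v
    · rw [if_pos hy]
      exact h3 x ((mem_cc p _ _).mpr hx) y ((mem_cc p _ _).mpr hy)
    · rw [if_neg hy, H.adj_comm, G.adj_comm]
      exact cross y x hy hx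
  · rw [if_neg hx]
    have hxv : x ≠ v := fun h4 => hx (by rw [h4])
    by_cases hy : p y = p v
    · rw [if_pos hy]
      exact cross x y hx hy
    · rw [if_neg hy]
      have hyv : y ≠ v := fun h4 => hy (by rw [h4])
      exact h.hyp.adj v x y hxv hyv

theorem cc_ty (p : V → ι) {x y : V} (h : p x = p y) (r : V → V → Prop) :
    ty (cc p x) r = ty (cc p y) r := by rw [cc_congr p h]

/-- the vertices in the other smallest classes -/
theorem count_eq (h : Setup G H π p q) {m : ℕ} (hm : ∀ x, m ≤ (cc p x).card) (v : V)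
    (hv : (cc p v).card = m) (A : Ty V) :
    (univ.filter (fun x => (cc p x).card = m ∧ p x ≠ p v ∧ ty (cc p x) G.Adj = A)).card =
    (univ.filter (fun y => (cc q y).card = m ∧ q y ≠ q v ∧ ty (cc q y) H.Adj = A)).card := by
  obtain ⟨_, hcl⟩ := min_cls h hm v hv
  have key : ∀ x, p x ≠ p v → (cc q (π v x)).card = (cc p x).card ∧
      ty (cc q (π v x)) H.Adj = ty (cc p x) G.Adj ∧ q (π v x) ≠ q v := by
    intro x hx
    have hxv : x ≠ v := fun h4 => hx (by rw [h4])
    have h1 : q (π v x) ≠ q v := fun he => hx ((hcl x hxv).mpr he)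
    have h2 : v ∉ cc p x := fun he => hx ((mem_cc p _ _).mp he).symm
    have h3 : v ∉ cc q (π v x) := fun he => h1 ((mem_cc q _ _).mp he).symm
    have h4 := card_map_erase h v x hxv
    have h5 := ty_map_erase h v x hxv
    rw [erase_eq_of_notMem h2, erase_eq_of_notMem h3] at h4 h5
    exact ⟨h4, h5, h1⟩
  apply card_bij (fun x _ => π v x)
  · intro x hx
    rw [mem_filter] at hx ⊢
    obtain ⟨k1, k2, k3⟩ := key x hx.2.2.1
    exact ⟨mem_univ _, by rw [k1]; exact hx.2.1, k3, by rw [k2]; exact hx.2.2.2⟩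
  · intro x _ y _ hxy
    exact (π v).injective hxy
  · intro y hy
    rw [mem_filter] at hy
    have hyv : y ≠ v := fun h4 => hy.2.2.1 (by rw [h4])
    have hx : p ((π v).symm y) ≠ p v := by
      intro he
      have := (hcl _ ((hypo_symm_ne h.hyp v y).mpr hyv)).mp he
      rw [Equiv.apply_symm_apply] at this
      exact hy.2.2.1 this
    obtain ⟨k1, k2, k3⟩ := key _ hx
    rw [Equiv.apply_symm_apply] at k1 k2 k3
    refine ⟨(π v).symm y, ?_, by simp⟩
    rw [mem_filter]
    exact ⟨mem_univ _, by rw [← k1]; exact hy.2.1, hx, by rw [← k2]; exact hy.2.2.2⟩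

theorem split_eq {m : ℕ} (r : V → V → Prop) (v : V) (hv : (cc p v).card = m) (A : Ty V) :
    (univ.filter (fun x => (cc p x).card = m ∧ ty (cc p x) r = A)).card =
    (univ.filter (fun x => (cc p x).card = m ∧ p x ≠ p v ∧ ty (cc p x) r = A)).card +
      (if ty (cc p v) r = A then m else 0) := by
  have h1 : univ.filter (fun x => (cc p x).card = m ∧ ty (cc p x) r = A) =
      univ.filter (fun x => (cc p x).card = m ∧ p x ≠ p v ∧ ty (cc p x) r = A) ∪
      univ.filter (fun x => p x = p v ∧ ty (cc p x) r = A) := by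
    ext x
    rw [mem_union, mem_filter, mem_filter, mem_filter]
    constructor
    · rintro ⟨_, h1, h2⟩
      by_cases h3 : p x = p v
      · exact Or.inr ⟨mem_univ _, h3, h2⟩
      · exact Or.inl ⟨mem_univ _, h1, h3, h2⟩
    · rintro (⟨_, h1, _, h2⟩ | ⟨_, h1, h2⟩)
      · exact ⟨mem_univ _, h1, h2⟩
      · exact ⟨mem_univ _, by rw [cc_congr p h1, hv], h2⟩
  rw [h1, card_union_of_disjoint]
  · congr 1
    split_ifs with h2
    · rw [← hv]
      congr 1
      ext x
      rw [mem_filter, mem_cc]
      constructor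
      · rintro ⟨_, h3, _⟩
        exact h3
      · intro h3
        exact ⟨mem_univ _, h3, by rw [cc_congr p h3, h2]⟩
    · rw [card_eq_zero, filter_eq_empty_iff]
      rintro x _ ⟨h3, h4⟩
      exact h2 (by rw [← cc_congr p h3, h4])
  · rw [Finset.disjoint_left]
    intro x hx hx'
    exact (mem_filter.mp hx).2.2.1 (mem_filter.mp hx').2.1

/-- the main theorem for corresponding partitions -/
theorem iso_of_setup (h : Setup G H π p q) :
    ∃ σ : Equiv.Perm V, ∀ x y, H.Adj (σ x) (σ y) ↔ G.Adj x y := by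
  obtain ⟨a0, b0, hab0⟩ := h.neG
  obtain ⟨v0, _, hv0⟩ := exists_min_image (univ : Finset V) (fun x => (cc p x).card)
    ⟨a0, mem_univ _⟩
  obtain ⟨m, hm0⟩ : ∃ m, (cc p v0).card = m := ⟨_, rfl⟩
  have hm : ∀ x, m ≤ (cc p x).card := fun x => by rw [← hm0]; exact hv0 x (mem_univ _)
  have hmq := min_le h hm
  have hmpos : 0 < m := by rw [← hm0]; exact cc_pos p v0
  by_contra hcon
  have hne : ∀ v, (cc p v).card = m → ty (cc p v) G.Adj ≠ ty (cc q v) H.Adj :=
    fun v hv he => hcon (iso_of_ty h hm v hv he)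
  have hcard : ∀ v, (cc q v).card = m ↔ (cc p v).card = m := fun v =>
    ⟨fun hv => (min_cls h.symm hmq v hv).1, fun hv => (min_cls h hm v hv).1⟩
  by_cases hcase : ∃ w, (cc p w).card = m ∧ p w ≠ p v0
  · obtain ⟨w, hw, hwp⟩ := hcase
    set α := ty (cc p v0) G.Adj with hα
    set g := (univ.filter (fun x => (cc p x).card = m ∧ ty (cc p x) G.Adj = α)).card with hg
    set k := (univ.filter (fun x => (cc q x).card = m ∧ ty (cc q x) H.Adj = α)).card with hk
    have e1 : g = k + m := by
      have s1 := split_eq (p := p) G.Adj v0 hm0 α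
      have s2 := split_eq (p := q) H.Adj v0 ((hcard v0).mpr hm0) α
      rw [if_pos rfl] at s1
      rw [if_neg (fun he => hne v0 hm0 he.symm)] at s2
      have s3 := count_eq h hm v0 hm0 α
      omega
    have e2 : ∀ x, (cc p x).card = m → ty (cc p x) G.Adj = α := by
      intro x hx
      by_contra hxα
      have s1 := split_eq (p := p) G.Adj x hx α
      have s2 := split_eq (p := q) H.Adj x ((hcard x).mpr hx) α
      rw [if_neg hxα] at s1
      have s3 := count_eq h hm x hx α
      omega
    have e3 : k = 0 := by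
      rw [hk, card_eq_zero, filter_eq_empty_iff]
      rintro x _ ⟨h1, h2⟩
      have h3 := (hcard x).mp h1
      exact hne x h3 (by rw [e2 x h3, h2])
    have e4 : m + m ≤ g := by
      rw [hg]
      have h1 : cc p v0 ∪ cc p w ⊆
          univ.filter (fun x => (cc p x).card = m ∧ ty (cc p x) G.Adj = α) := by
        intro x hx
        have hxm : (cc p x).card = m := by
          rcases mem_union.mp hx with hx | hx
          · rw [cc_congr p ((mem_cc p _ _).mp hx), hm0]
          · rw [cc_congr p ((mem_cc p _ _).mp hx), hw]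
        exact mem_filter.mpr ⟨mem_univ _, hxm, e2 x hxm⟩
      have h2 := card_le_card h1
      rw [card_union_of_disjoint, hm0, hw] at h2
      · exact h2
      · rw [Finset.disjoint_left]
        intro x hx hx'
        rw [mem_cc] at hx hx'
        exact hwp (hx'.symm.trans hx)
    omega
  · push Not at hcase
    have hWp : ∀ x, (cc p x).card = m ↔ p x = p v0 :=
      fun x => ⟨hcase x, fun he => by rw [cc_congr p he, hm0]⟩
    have hWq : ∀ x, (cc q x).card = m ↔ q x = q v0 := by
      have h1 : cc q v0 ⊆ cc p v0 := by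
        intro x hx
        rw [mem_cc] at hx ⊢
        rw [← hWp, ← hcard, cc_congr q hx, hcard, hm0]
      have h2 : cc q v0 = cc p v0 := eq_of_subset_of_card_le h1 (by
        rw [hm0, (hcard v0).mpr hm0])
      intro x
      rw [hcard, hWp, ← mem_cc, ← h2, mem_cc]
    have claim : ∀ v, p v ≠ p v0 → ty ((cc q v).erase v) H.Adj = ty (cc p v0) G.Adj := by
      intro v hv
      have hv0v : v0 ≠ v := fun he => hv (by rw [he])
      have h1 := ty_map_erase h v v0 hv0v
      have h2 := card_map_erase h v v0 hv0v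
      have h3 : v ∉ cc p v0 := fun he => hv ((mem_cc p _ _).mp he)
      rw [erase_eq_of_notMem h3] at h1 h2
      have h4 : v ∈ cc q (π v v0) := by
        by_contra h5
        rw [erase_eq_of_notMem h5] at h1 h2
        rw [hm0, hWq] at h2
        rw [cc_congr q h2] at h1
        exact hne v0 hm0 h1.symm
      rw [mem_cc] at h4
      rw [← cc_congr q h4] at h1
      exact h1
    have claim' : ∀ v, q v ≠ q v0 → ty ((cc p v).erase v) G.Adj = ty (cc q v0) H.Adj := by
      intro v hv
      have hv0v : v0 ≠ v := fun he => hv (by rw [he])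
      have h1 := ty_map_erase h.symm v v0 hv0v
      have h2 := card_map_erase h.symm v v0 hv0v
      have h3 : v ∉ cc q v0 := fun he => hv ((mem_cc q _ _).mp he)
      rw [erase_eq_of_notMem h3] at h1 h2
      have h4 : v ∈ cc p ((π v).symm v0) := by
        by_contra h5
        rw [erase_eq_of_notMem h5] at h1 h2
        rw [(hcard v0).mpr hm0, hWp] at h2
        rw [cc_congr p h2] at h1
        exact hne v0 hm0 h1
      rw [mem_cc] at h4
      rw [← cc_congr p h4] at h1
      exact h1
    obtain ⟨x0, hx0⟩ : ∃ x0, p x0 ≠ p v0 := by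
      by_cases h1 : p a0 = p v0
      · exact ⟨b0, fun h2 => hab0 (h1.trans h2.symm)⟩
      · exact ⟨a0, h1⟩
    have hxv : x0 ≠ v0 := fun he => hx0 (by rw [he])
    obtain ⟨_, hcl⟩ := min_cls h hm v0 hm0
    have hy0 : q (π v0 x0) ≠ q v0 := fun he => hx0 ((hcl x0 hxv).mpr he)
    have hy1 : p (π v0 x0) ≠ p v0 := by
      rw [ne_eq, ← hWp, ← hcard, hWq]
      exact hy0
    have hx1 : q x0 ≠ q v0 := by
      rw [ne_eq, ← hWq, hcard, hWp]
      exact hx0
    have c1 := claim _ hy1
    have c2 := claim' _ hx1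
    have hv1 : v0 ∉ cc p x0 := fun he => hx0 ((mem_cc p _ _).mp he).symm
    have hv2 : v0 ∉ cc q (π v0 x0) := fun he => hy0 ((mem_cc q _ _).mp he).symm
    have h1 := map_erase h v0 x0 hxv
    rw [erase_eq_of_notMem hv1, erase_eq_of_notMem hv2] at h1
    have h2 : ((cc p x0).erase x0).map (π v0).toEmbedding =
        (cc q (π v0 x0)).erase (π v0 x0) := by
      rw [← h1]
      ext y
      rw [mem_map, mem_erase, mem_map]
      constructor
      · rintro ⟨z, hz, rfl⟩
        rw [mem_erase] at hz
        exact ⟨fun he => hz.1 ((π v0).injective he), z, hz.2, rfl⟩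
      · rintro ⟨h3, z, hz, rfl⟩
        exact ⟨z, mem_erase.mpr ⟨fun he => h3 (by rw [he]; rfl), hz⟩, rfl⟩
    have h3 := ty_erase h v0 ((cc p x0).erase x0) (fun he => hv1 (mem_erase.mp he).2)
    rw [h2, c1, c2] at h3
    exact hne v0 hm0 h3

end Pool.Agent.R553.Mod
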