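import Pool.Agent.R553.Mod.Basic
import Pool.Agent.H234RC.Defs

/-!
# The partition of a hypomorphic graph
-/

set_option autoImplicit false
set_option linter.unusedSectionVars false

namespace Pool.Agent.R553.Mod

open Finset Classical
open Pool.Agent.H234RC (Hypo NonIso Reconstructible)

variable {V : Type} [Fintype V] {ι κ : Type}

/-- all classes have at least two elements -/
def Two (p : V → ι) : Prop := ∀ x, ∃ y, y ≠ x ∧ p y = p x

/-- hypomorphic graphs with corresponding partitions into modules -/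
structure Setup (G H : SimpleGraph V) (π : V → Equiv.Perm V) (p : V → ι) (q : V → κ) : Prop where
  hyp : Hypo G H π
  mpG : MP G univ p
  mpH : MP H univ q
  twoG : Two p
  twoH : Two q
  neG : ∃ a b, p a ≠ p b
  neH : ∃ a b, q a ≠ q b
  cls : ∀ v x y, x ≠ v → y ≠ v → (q (π v x) = q (π v y) ↔ p x = p y)

theorem hypo_ne {G H : SimpleGraph V} {π : V → Equiv.Perm V} (h : Hypo G H π) (v x : V) :
    π v x ≠ v ↔ x ≠ v := by
  constructor
  · intro h1 h2
    exact h1 (by rw [h2, h.fix])
  · intro h1 h2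
    exact h1 ((π v).injective (h2.trans (h.fix v).symm))

theorem hypo_symm_ne {G H : SimpleGraph V} {π : V → Equiv.Perm V} (h : Hypo G H π) (v x : V) :
    (π v).symm x ≠ v ↔ x ≠ v := by
  have := hypo_ne h v ((π v).symm x)
  rw [Equiv.apply_symm_apply] at this
  exact this.symm

theorem hypo_symm {G H : SimpleGraph V} {π : V → Equiv.Perm V} (h : Hypo G H π) :
    Hypo H G (fun v => (π v).symm) := by
  refine ⟨fun v => ?_, fun v x y hx hy => ?_⟩
  · show (π v).symm v = v
    rw [Equiv.symm_apply_eq]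
    exact (h.fix v).symm
  · show G.Adj ((π v).symm x) ((π v).symm y) ↔ H.Adj x y
    have := h.adj v ((π v).symm x) ((π v).symm y) ((hypo_symm_ne h v x).mpr hx)
      ((hypo_symm_ne h v y).mpr hy)
    rw [Equiv.apply_symm_apply, Equiv.apply_symm_apply] at this
    exact this.symm

theorem Setup.symm {G H : SimpleGraph V} {π : V → Equiv.Perm V} {p : V → ι} {q : V → κ}
    (h : Setup G H π p q) : Setup H G (fun v => (π v).symm) q p := by
  refine ⟨hypo_symm h.hyp, h.mpH, h.mpG, h.twoH, h.twoG, h.neH, h.neG, fun v x y hx hy => ?_⟩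
  show p ((π v).symm x) = p ((π v).symm y) ↔ q x = q y
  have := h.cls v ((π v).symm x) ((π v).symm y) ((hypo_symm_ne h.hyp v x).mpr hx)
      ((hypo_symm_ne h.hyp v y).mpr hy)
  rw [Equiv.apply_symm_apply, Equiv.apply_symm_apply] at this
  exact this.symm

theorem image_card_le (W : Finset V) (p : V → ι) (q : V → κ)
    (h : ∀ x ∈ W, ∀ y ∈ W, q x = q y → p x = p y) : (W.image p).card ≤ (W.image q).card := by
  rcases W.eq_empty_or_nonempty with rfl | ⟨w, _⟩
  · simp
  have : Nonempty V := ⟨w⟩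
  have hex : ∀ a ∈ W.image p, ∃ x ∈ W, p x = a := fun a ha => mem_image.mp ha
  choose! f hf1 hf2 using hex
  apply card_le_card_of_injOn (fun a => q (f a))
  · intro a ha
    exact mem_coe.mpr (mem_image_of_mem q (hf1 a (mem_coe.mp ha)))
  · intro a ha b hb hab
    have := h _ (hf1 a (mem_coe.mp ha)) _ (hf1 b (mem_coe.mp hb)) hab
    rw [hf2 a (mem_coe.mp ha), hf2 b (mem_coe.mp hb)] at this
    exact this

section

variable {G H : SimpleGraph V} {π : V → Equiv.Perm V} (hH : Hypo G H π) {p : V → ι}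
  (hP : PM G univ p) (hT : Two p)

/-- the partition of `H - v` -/
def pv (π : V → Equiv.Perm V) (p : V → ι) (v : V) : V → ι := fun x => p ((π v).symm x)

include hH hP hT in
theorem pm_v (v : V) : PM H (univ.erase v) (pv π p v) := by
  obtain ⟨v', h1, h2⟩ := hT v
  have h3 := hP.del v v' (mem_univ _) (mem_univ _) h1 h2
  refine h3.map (π v) (univ.erase v) (fun x => ?_) (fun x hx y hy => ?_)
  · rw [mem_erase, mem_erase, hypo_ne hH v x]
    simp
  · exact hH.adj v x y (mem_erase.mp hx).1 (mem_erase.mp hy).1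

/-- `v` is a class of the partition of `H - u` -/
def Sg (π : V → Equiv.Perm V) (p : V → ι) (u v : V) : Prop :=
  v ≠ u ∧ ∀ x, x ≠ u → x ≠ v → pv π p u x ≠ pv π p u v

include hH hT in
theorem sg_unique {u v w : V} (hv : Sg π p u v) (hw : Sg π p u w) : v = w := by
  by_contra hne
  have key : ∀ v, Sg π p u v → p u = p ((π u).symm v) := by
    intro v hv
    obtain ⟨y, h1, h2⟩ := hT ((π u).symm v)
    by_cases hy : y = u
    · rw [hy] at h2
      exact h2
    · exfalso
      refine hv.2 (π u y) ((hypo_ne hH u y).mpr hy) (fun he => h1 ?_) ?_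
      · rw [← he, Equiv.symm_apply_apply]
      · show p ((π u).symm (π u y)) = p ((π u).symm v)
        rw [Equiv.symm_apply_apply]
        exact h2
  exact hv.2 w hw.1 (Ne.symm hne) ((key w hw).symm.trans (key v hv))

include hH hT in
theorem image_v (u : V) : (univ.erase u).image (pv π p u) = univ.image p := by
  ext a
  rw [mem_image, mem_image]
  constructor
  · rintro ⟨x, _, hx⟩
    exact ⟨_, mem_univ _, hx⟩
  · rintro ⟨x, _, hx⟩
    have : ∃ y, y ≠ u ∧ p y = a := by
      by_cases h1 : x = u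
      · obtain ⟨y, h2, h3⟩ := hT u
        exact ⟨y, h2, by rw [h3, ← h1, hx]⟩
      · exact ⟨x, h1, hx⟩
    obtain ⟨y, h1, h2⟩ := this
    refine ⟨π u y, mem_erase.mpr ⟨(hypo_ne hH u y).mpr h1, mem_univ _⟩, ?_⟩
    show p ((π u).symm (π u y)) = a
    rw [Equiv.symm_apply_apply, h2]

include hH hT in
theorem card_nsg {u v : V} (huv : v ≠ u) (h : ¬ Sg π p u v) :
    (((univ.erase u).erase v).image (pv π p u)).card = (univ.image p).card := by
  rw [← image_v hH hT u]
  congr 1
  have h' : ∃ x, x ≠ u ∧ x ≠ v ∧ pv π p u x = pv π p u v := by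
    by_contra hcon
    push Not at hcon
    exact h ⟨huv, hcon⟩
  obtain ⟨x, h1, h2, h3⟩ := h'
  apply Subset.antisymm
  · exact image_subset_image (erase_subset _ _)
  · intro a ha
    obtain ⟨y, hy, rfl⟩ := mem_image.mp ha
    by_cases hyv : y = v
    · rw [hyv, ← h3]
      exact mem_image_of_mem _ (mem_erase.mpr ⟨h2, mem_erase.mpr ⟨h1, mem_univ _⟩⟩)
    · exact mem_image_of_mem _ (mem_erase.mpr ⟨hyv, hy⟩)

include hH hT in
theorem card_sg {u v : V} (h : Sg π p u v) :
    (((univ.erase u).erase v).image (pv π p u)).card < (univ.image p).card := by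
  rw [← image_v hH hT u]
  apply card_lt_card
  rw [ssubset_iff_of_subset (image_subset_image (erase_subset _ _))]
  refine ⟨pv π p u v, mem_image_of_mem _ (mem_erase.mpr ⟨h.1, mem_univ _⟩), fun h1 => ?_⟩
  obtain ⟨x, hx, hxe⟩ := mem_image.mp h1
  rw [mem_erase, mem_erase] at hx
  exact h.2 x hx.2.1 hx.1 hxe

include hH hP hT in
theorem ref_v {u v : V} (huv : v ≠ u) (h : ¬ Sg π p u v) : ∀ x ∈ (univ.erase u).erase v,
    ∀ y ∈ (univ.erase u).erase v, pv π p v x = pv π p v y → pv π p u x = pv π p u y := by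
  have h' : ∃ x, x ≠ u ∧ x ≠ v ∧ pv π p u x = pv π p u v := by
    by_contra hcon
    push Not at hcon
    exact h ⟨huv, hcon⟩
  obtain ⟨v', h1, h2, h3⟩ := h'
  have hpm := (pm_v hH hP hT u).del v v' (mem_erase.mpr ⟨huv, mem_univ _⟩)
    (mem_erase.mpr ⟨h1, mem_univ _⟩) h2 h3
  have hpv := pm_v hH hP hT v
  refine refines hpm (pv π p v) ?_ ?_
  · intro x hx y hy z hz
    exact hpv.mp x (mem_erase.mpr ⟨(mem_erase.mp hx).1, mem_univ _⟩) y
      (mem_erase.mpr ⟨(mem_erase.mp hy).1, mem_univ _⟩) z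
      (mem_erase.mpr ⟨(mem_erase.mp hz).1, mem_univ _⟩)
  · obtain ⟨a, ha, b, hb, c, hc, hab, hac, hbc⟩ := hpv.th
    have mk : ∀ a ∈ univ.erase v, a ≠ u → a ∈ (univ.erase u).erase v := fun a ha hau =>
      mem_erase.mpr ⟨(mem_erase.mp ha).1, mem_erase.mpr ⟨hau, mem_univ _⟩⟩
    by_cases hau : a = u
    · have hbu : b ≠ u := fun hb => hab (by rw [hau, hb])
      have hcu : c ≠ u := fun hc => hac (by rw [hau, hc])
      exact ⟨b, mk b hb hbu, c, mk c hc hcu, hbc⟩
    · by_cases hbu : b = u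
      · have hcu : c ≠ u := fun hc => hbc (by rw [hbu, hc])
        exact ⟨a, mk a ha hau, c, mk c hc hcu, hac⟩
      · exact ⟨a, mk a ha hau, b, mk b hb hbu, hab⟩

include hH hP hT in
theorem sg_symm {u v : V} (h : Sg π p v u) : Sg π p u v := by
  by_contra hcon
  have huv : v ≠ u := fun he => h.1 he.symm
  have h1 := card_nsg hH hT huv hcon
  have h2 := card_sg hH hT h
  have h3 := image_card_le _ _ _ (ref_v hH hP hT huv hcon)
  rw [h1, erase_right_comm] at h3
  omega

include hH hP hT in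
theorem agree1 {u v : V} (huv : v ≠ u) (h : ¬ Sg π p u v) (x y : V) (hx : x ≠ u) (hx' : x ≠ v)
    (hy : y ≠ u) (hy' : y ≠ v) : pv π p u x = pv π p u y ↔ pv π p v x = pv π p v y := by
  have h' : ¬ Sg π p v u := fun h1 => h (sg_symm hH hP hT h1)
  constructor
  · intro h1
    exact ref_v hH hP hT huv.symm h' x
      (mem_erase.mpr ⟨hx, mem_erase.mpr ⟨hx', mem_univ _⟩⟩) y
      (mem_erase.mpr ⟨hy, mem_erase.mpr ⟨hy', mem_univ _⟩⟩) h1
  · intro h1
    exact ref_v hH hP hT huv h x
      (mem_erase.mpr ⟨hx', mem_erase.mpr ⟨hx, mem_univ _⟩⟩) y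
      (mem_erase.mpr ⟨hy', mem_erase.mpr ⟨hy, mem_univ _⟩⟩) h1

include hP hT in
theorem five_le : 5 ≤ Fintype.card V := by
  obtain ⟨a, _, b, _, c, _, hab, hac, hbc⟩ := hP.th
  obtain ⟨a', ha1, ha2⟩ := hT a
  obtain ⟨b', hb1, hb2⟩ := hT b
  have h : ({a, a', b, b', c} : Finset V).card = 5 := by
    rw [card_insert_of_notMem, card_insert_of_notMem, card_insert_of_notMem, card_insert_of_notMem,
      card_singleton]
    · rw [mem_singleton]
      rintro rfl
      exact hbc hb2.symm
    · rw [mem_insert, mem_singleton, not_or]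
      exact ⟨hb1.symm, fun h => hbc (by rw [h])⟩
    · rw [mem_insert, mem_insert, mem_singleton, not_or, not_or]
      refine ⟨fun h => hab (by rw [← h, ha2]), fun h => hab (by rw [← ha2, h, hb2]),
        fun h => hac (by rw [← h, ha2])⟩
    · rw [mem_insert, mem_insert, mem_insert, mem_singleton, not_or, not_or, not_or]
      exact ⟨ha1.symm, fun h => hab (by rw [h]), fun h => hab (by rw [h, hb2]),
        fun h => hac (by rw [h])⟩
  rw [← h]
  exact card_le_univ _

include hP hT in
theorem avoid (a b c d : V) : ∃ w, w ≠ a ∧ w ≠ b ∧ w ≠ c ∧ w ≠ d := by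
  have h5 := five_le hP hT
  by_contra hcon
  push Not at hcon
  have h : (univ : Finset V) ⊆ {a, b, c, d} := by
    intro w _
    rw [mem_insert, mem_insert, mem_insert, mem_singleton]
    by_cases h1 : w = a
    · exact Or.inl h1
    · by_cases h2 : w = b
      · exact Or.inr (Or.inl h2)
      · by_cases h3 : w = c
        · exact Or.inr (Or.inr (Or.inl h3))
        · exact Or.inr (Or.inr (Or.inr (hcon w h1 h2 h3)))
  have h1 := card_le_card h
  have h2 := card_le_four (a := a) (b := b) (c := c) (d := d)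
  rw [card_univ] at h1
  omega

include hH hP hT in
theorem agree {u v : V} (x y : V) (hx : x ≠ u) (hx' : x ≠ v)
    (hy : y ≠ u) (hy' : y ≠ v) : pv π p u x = pv π p u y ↔ pv π p v x = pv π p v y := by
  by_cases huv : v = u
  · rw [huv]
  · by_cases h : Sg π p u v
    · obtain ⟨w, h1, h2, h3, h4⟩ := avoid hP hT u v x y
      have e1 := agree1 hH hP hT h1 (fun h5 => h2 (sg_unique hH hT h5 h)) x y hx (Ne.symm h3) hy
        (Ne.symm h4)
      have e2 := agree1 hH hP hT h2 (fun h5 => h1 (sg_unique hH hT h5 (sg_symm hH hP hT h))) x y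
        hx' (Ne.symm h3) hy' (Ne.symm h4)
      exact e1.trans e2.symm
    · exact agree1 hH hP hT huv h x y hx hx' hy hy'

/-- the relation of the partition of `H` -/
def RR (π : V → Equiv.Perm V) (p : V → ι) (x y : V) : Prop :=
  ∀ v, v ≠ x → v ≠ y → pv π p v x = pv π p v y

include hH hP hT in
theorem rr_iff (v x y : V) (hx : x ≠ v) (hy : y ≠ v) : RR π p x y ↔ pv π p v x = pv π p v y := by
  constructor
  · intro h
    exact h v hx.symm hy.symm
  · intro h w hwx hwy
    exact (agree hH hP hT x y hx hwx.symm hy hwy.symm).mp h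

theorem rr_refl (x : V) : RR π p x x := fun _ _ _ => rfl

theorem rr_symm {x y : V} (h : RR π p x y) : RR π p y x := fun v h1 h2 => (h v h2 h1).symm

include hH hP hT in
theorem rr_trans {x y z : V} (h : RR π p x y) (k : RR π p y z) : RR π p x z := by
  obtain ⟨w, h1, h2, h3, _⟩ := avoid hP hT x y z z
  rw [rr_iff hH hP hT w x z h1.symm h3.symm]
  exact (h w h1 h2).trans (k w h2 h3)

/-- the partition of `H` -/
noncomputable def qq (π : V → Equiv.Perm V) (p : V → ι) (x : V) : Finset V :=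
  univ.filter (fun y => RR π p x y)

include hH hP hT in
theorem qq_iff (x y : V) : qq π p x = qq π p y ↔ RR π p x y := by
  constructor
  · intro h
    have : y ∈ qq π p y := mem_filter.mpr ⟨mem_univ _, rr_refl y⟩
    rw [← h] at this
    exact (mem_filter.mp this).2
  · intro h
    ext z
    unfold qq
    rw [mem_filter, mem_filter]
    exact ⟨fun h1 => ⟨h1.1, rr_trans hH hP hT (rr_symm h) h1.2⟩,
      fun h1 => ⟨h1.1, rr_trans hH hP hT h h1.2⟩⟩

include hH hP hT in
/-- the partition of a hypomorphic graph -/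
theorem setup : Setup G H π p (qq π p) := by
  have hcls : ∀ v x y, x ≠ v → y ≠ v → (qq π p (π v x) = qq π p (π v y) ↔ p x = p y) := by
    intro v x y hx hy
    rw [qq_iff hH hP hT, rr_iff hH hP hT v _ _ ((hypo_ne hH v x).mpr hx)
      ((hypo_ne hH v y).mpr hy)]
    show p ((π v).symm (π v x)) = p ((π v).symm (π v y)) ↔ p x = p y
    rw [Equiv.symm_apply_apply, Equiv.symm_apply_apply]
  have hneG : ∃ a b, p a ≠ p b := by
    obtain ⟨a, _, b, _, _, _, h, _⟩ := hP.th
    exact ⟨a, b, h⟩
  refine ⟨hH, hP.mp, ?_, hT, ?_, hneG, ?_, hcls⟩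
  · intro x _ y _ z _ hxy hzx
    obtain ⟨w, h1, h2, h3, _⟩ := avoid hP hT x y z z
    rw [qq_iff hH hP hT, rr_iff hH hP hT w x y h1.symm h2.symm] at hxy
    rw [ne_eq, qq_iff hH hP hT, rr_iff hH hP hT w z x h3.symm h1.symm] at hzx
    exact (pm_v hH hP hT w).mp x (mem_erase.mpr ⟨h1.symm, mem_univ _⟩) y
      (mem_erase.mpr ⟨h2.symm, mem_univ _⟩) z (mem_erase.mpr ⟨h3.symm, mem_univ _⟩) hxy hzx
  · intro x
    by_contra hcon
    push Not at hcon
    have h1 : ∀ u, u ≠ x → Sg π p x u := by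
      intro u hu
      apply sg_symm hH hP hT
      refine ⟨hu.symm, fun y hy hyx he => ?_⟩
      exact hcon y hyx ((qq_iff hH hP hT y x).mpr ((rr_iff hH hP hT u y x hy hu.symm).mpr he))
    obtain ⟨u, hu, _⟩ := avoid hP hT x x x x
    obtain ⟨w, hw, hw', _⟩ := avoid hP hT x u x x
    exact hw' (sg_unique hH hT (h1 w hw) (h1 u hu))
  · obtain ⟨a, b, hab⟩ := hneG
    obtain ⟨w, h1, h2, _⟩ := avoid hP hT a b a a
    exact ⟨π w a, π w b, fun he => hab ((hcls w a b h1.symm h2.symm).mp he)⟩

end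

end Pool.Agent.R553.Mod
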