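import Pool.Agent.R553.Mod.Main
import Pool.Agent.R553.Mod.Conv

/-!
# Graphs with a large module which induces a reconstructible graph
-/

set_option autoImplicit false
set_option linter.unusedSectionVars false

namespace Pool.Agent.R553.Mod

open Finset Classical
open Pool.Agent.H234RC (Hypo NonIso Reconstructible)
open Pool.Agent.TH87.RVE (rec_of)
open Pool.Agent.TH87.RVP (disc_iso)
open Pool.Agent.TH87.RVM (Rl)

section two

variable {V : Type} [Fintype V] {ι : Type}

/-- two modules: the graph or its complement is disconnected -/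
theorem two_classes {G H : SimpleGraph V} {π : V → Equiv.Perm V} (hH : Hypo G H π)
    (h3 : 3 ≤ Fintype.card V) (p : V → ι) (hp1 : MP G univ p) (a b : V) (hab : p a ≠ p b)
    (htwo : ∀ x, p x = p a ∨ p x = p b) :
    ∃ σ : Equiv.Perm V, ∀ x y, H.Adj (σ x) (σ y) ↔ G.Adj x y := by
  have hcross : ∀ x y, p x = p a → p y ≠ p a → (G.Adj x y ↔ G.Adj a b) := by
    intro x y hx hy
    have hy' : p y = p b := (htwo y).resolve_left hy
    have e1 := hp1 x (mem_univ _) a (mem_univ _) y (mem_univ _) hx (by rw [hx]; exact hy)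
    have e2 := hp1 y (mem_univ _) b (mem_univ _) a (mem_univ _) hy' (by
      rw [hy']; exact hab)
    rw [G.adj_comm x y, e1, G.adj_comm y a, e2]
  by_cases hadj : G.Adj a b
  · have hc := compl_iso hH
    obtain ⟨σ, hσ⟩ := disc_iso hc h3 (univ.filter (fun x => p x = p a))
      ⟨a, mem_filter.mpr ⟨mem_univ _, rfl⟩⟩
      ⟨b, fun h => hab (mem_filter.mp h).2.symm⟩
      (by
        intro x hx y hy hxy
        rw [SimpleGraph.compl_adj] at hxy
        exact hxy.2 ((hcross x y (mem_filter.mp hx).2
          (fun h => hy (mem_filter.mpr ⟨mem_univ _, h⟩))).mpr hadj))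
    refine ⟨σ, fun x y => ?_⟩
    have := hσ x y
    rw [SimpleGraph.compl_adj, SimpleGraph.compl_adj, σ.injective.ne_iff] at this
    by_cases hxy : x = y
    · subst hxy
      simp
    · have h4 : (¬ H.Adj (σ x) (σ y)) ↔ ¬ G.Adj x y := by
        constructor
        · intro h5
          exact (this.mp ⟨hxy, h5⟩).2
        · intro h5
          exact (this.mpr ⟨hxy, h5⟩).2
      exact not_iff_not.mp h4
  · exact disc_iso hH h3 (univ.filter (fun x => p x = p a))
      ⟨a, mem_filter.mpr ⟨mem_univ _, rfl⟩⟩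
      ⟨b, fun h => hab (mem_filter.mp h).2.symm⟩
      (by
        intro x hx y hy hxy
        exact hadj ((hcross x y (mem_filter.mp hx).2
          (fun h => hy (mem_filter.mpr ⟨mem_univ _, h⟩))).mp hxy))

end two

variable {V : Type} [Fintype V] {ι : Type}

/-- module -/
def Md (K : SimpleGraph V) (M : Finset V) : Prop :=
  ∀ z, z ∉ M → ∀ x ∈ M, ∀ y ∈ M, (K.Adj z x ↔ K.Adj z y)

/-- the card isomorphisms of the vertices of `U` preserve `U` -/
def Sub (π : V → Equiv.Perm V) (U : Finset V) : Prop :=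
  ∀ v ∈ U, ∀ x, x ≠ v → (π v x ∈ U ↔ x ∈ U)

/-- a coarsest partition of `U` into modules with `M` inside a class is prime -/
theorem exists_prime_rel (K : SimpleGraph V) (U M : Finset V) (hM : M ⊆ U)
    (hmod : ∀ x ∈ M, ∀ y ∈ M, ∀ z ∈ U, z ∉ M → (K.Adj z x ↔ K.Adj z y)) (m0 : V) (hm0 : m0 ∈ M)
    (hlt : ∃ z ∈ U, z ∉ M) :
    ∃ p : V → V, MP K U p ∧ (∀ x ∈ M, ∀ y ∈ M, p x = p y) ∧ (∃ a ∈ U, ∃ b ∈ U, p a ≠ p b) ∧
      Pr K U p := by
  set Gd : (V → V) → Prop := fun p => MP K U p ∧ (∀ x ∈ M, ∀ y ∈ M, p x = p y) ∧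
    (∃ a ∈ U, ∃ b ∈ U, p a ≠ p b) with hGd
  have h0 : Gd (fun x => if x ∈ M then m0 else x) := by
    refine ⟨?_, ?_, ?_⟩
    · intro x hx y hy z hz hxy hzx
      simp only at hxy hzx
      by_cases hxM : x ∈ M
      · rw [if_pos hxM] at hxy hzx
        have hyM : y ∈ M := by
          by_contra h
          rw [if_neg h] at hxy
          exact h (hxy ▸ hm0)
        have hzM : z ∉ M := fun h => hzx (if_pos h)
        exact hmod x hxM y hyM z hz hzM
      · rw [if_neg hxM] at hxy hzx
        have : x = y := by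
          by_cases hyM : y ∈ M
          · rw [if_pos hyM] at hxy
            exact absurd (hxy ▸ hm0) hxM
          · rw [if_neg hyM] at hxy
            exact hxy
        rw [this]
    · intro x hx y hy
      simp only
      rw [if_pos hx, if_pos hy]
    · obtain ⟨z, hz, hzM⟩ := hlt
      refine ⟨m0, hM hm0, z, hz, ?_⟩
      simp only
      rw [if_pos hm0, if_neg hzM]
      exact fun h => hzM (h ▸ hm0)
  have hex : ∃ k, ∃ p : V → V, Gd p ∧ (U.image p).card = k := ⟨_, _, h0, rfl⟩
  obtain ⟨p, ⟨hp1, hp2, hp3⟩, hpk⟩ := Nat.find_spec hex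
  have hmin : ∀ p' : V → V, Gd p' → (U.image p).card ≤ (U.image p').card := by
    intro p' hp'
    rw [hpk]
    exact Nat.find_min' hex ⟨p', hp', rfl⟩
  refine ⟨p, hp1, hp2, hp3, ?_⟩
  intro A hAsub hsat hmodA
  by_contra hcon
  push Not at hcon
  obtain ⟨⟨x0, hx0, y0, hy0, hxy0⟩, hAU⟩ := hcon
  obtain ⟨z0, hz0U, hz0⟩ : ∃ z ∈ U, z ∉ A := by
    by_contra h
    push Not at h
    exact hAU (Subset.antisymm hAsub h)
  have hsat' : ∀ x y, x ∈ A → y ∈ U → y ∉ A → p x ≠ p y := fun x y hx hyU hy he =>
    hy (hsat x hx y hyU he)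
  set p' : V → V := fun x => if x ∈ A then p x0 else p x with hp'
  have pin : ∀ x, x ∈ A → p' x = p x0 := fun x hx => if_pos hx
  have pout : ∀ x, x ∉ A → p' x = p x := fun x hx => if_neg hx
  have hgood : Gd p' := by
    refine ⟨?_, ?_, ?_⟩
    · intro x hxU y hyU z hzU hxy hzx
      by_cases hx : x ∈ A
      · have hy : y ∈ A := by
          by_contra hy
          rw [pin x hx, pout y hy] at hxy
          exact hsat' x0 y hx0 hyU hy hxy
        have hz : z ∉ A := by
          intro hz
          rw [pin x hx, pin z hz] at hzx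
          exact hzx rfl
        exact hmodA x hx y hy z hzU hz
      · have hy : y ∉ A := by
          intro hy
          rw [pout x hx, pin y hy] at hxy
          exact hsat' x0 x hx0 hxU hx hxy.symm
        rw [pout x hx, pout y hy] at hxy
        rw [pout x hx] at hzx
        have hz : p z ≠ p x := by
          by_cases hz : z ∈ A
          · exact hsat' z x hz hxU hx
          · rw [pout z hz] at hzx
            exact hzx
        exact hp1 x hxU y hyU z hzU hxy hz
    · intro x hx y hy
      have h1 := hp2 x hx y hy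
      by_cases hxA : x ∈ A
      · rw [pin x hxA, pin y (hsat x hxA y (hM hy) h1)]
      · have hyA : y ∉ A := fun h => hxA (hsat y h x (hM hx) h1.symm)
        rw [pout x hxA, pout y hyA, h1]
    · refine ⟨z0, hz0U, x0, hAsub hx0, ?_⟩
      rw [pin x0 hx0, pout z0 hz0]
      exact (hsat' x0 z0 hx0 hz0U hz0).symm
  have h1 := hmin p' hgood
  have h2 : (U.image p').card < (U.image p).card := by
    apply card_lt_card
    rw [ssubset_iff_of_subset]
    · refine ⟨p y0, mem_image_of_mem p (hAsub hy0), fun h3 => ?_⟩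
      obtain ⟨z, hzU, hz⟩ := mem_image.mp h3
      by_cases hzA : z ∈ A
      · rw [pin z hzA] at hz
        exact hxy0 hz
      · rw [pout z hzA] at hz
        exact hsat' y0 z hy0 hzU hzA hz.symm
    · intro a ha
      obtain ⟨z, hzU, rfl⟩ := mem_image.mp ha
      by_cases hzA : z ∈ A
      · rw [pin z hzA]
        exact mem_image_of_mem p (hAsub hx0)
      · rw [pout z hzA]
        exact mem_image_of_mem p hzU
  omega

section

variable {G H : SimpleGraph V} {π : V → Equiv.Perm V}

theorem sub_erase (hH : Hypo G H π) {U : Finset V} (hS : Sub π U) (v : V) (hv : v ∈ U) (x : V) :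
    π v x ∈ U.erase v ↔ x ∈ U.erase v := by
  rw [mem_erase, mem_erase, hypo_ne hH v x]
  constructor
  · rintro ⟨h1, h2⟩
    exact ⟨h1, (hS v hv x h1).mp h2⟩
  · rintro ⟨h1, h2⟩
    exact ⟨h1, (hS v hv x h1).mpr h2⟩

/-- an isomorphism of the graphs induced by a common module extends -/
theorem iso_ext (hH : Hypo G H π) {U : Finset V} (hS : Sub π U) (hG : Md G U) (hK : Md H U)
    (h2 : 2 ≤ U.card) (hR : Rl (U, G.Adj) (U, H.Adj)) :
    ∃ σ : Equiv.Perm V, ∀ x y, H.Adj (σ x) (σ y) ↔ G.Adj x y := by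
  obtain ⟨f, h1, h3, h4⟩ := hR
  simp only at h1 h3 h4
  obtain ⟨v, hv, v', hv', hne⟩ := one_lt_card.mp (show 1 < U.card by omega)
  have hf : ∀ x ∈ U, f x ∈ U := by
    intro x hx
    have : f x ∈ U.image f := mem_image_of_mem f hx
    rwa [h3] at this
  have hπ : ∀ x, x ∉ U → π v x ∉ U := fun x hx h =>
    hx ((hS v hv x (fun he => hx (he ▸ hv))).mp h)
  have hinj : Function.Injective (fun x => if x ∈ U then f x else π v x) := by
    intro x y hxy
    simp only at hxy
    by_cases hx : x ∈ U
    · rw [if_pos hx] at hxy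
      by_cases hy : y ∈ U
      · rw [if_pos hy] at hxy
        exact h1 x hx y hy hxy
      · rw [if_neg hy] at hxy
        exact absurd (hxy ▸ hf x hx) (hπ y hy)
    · rw [if_neg hx] at hxy
      by_cases hy : y ∈ U
      · rw [if_pos hy] at hxy
        exact absurd (hxy ▸ hf y hy) (hπ x hx)
      · rw [if_neg hy] at hxy
        exact (π v).injective hxy
  have cross : ∀ x y, x ∉ U → y ∈ U → (H.Adj (π v x) (f y) ↔ G.Adj x y) := by
    intro x y hx hy
    have hxv : x ≠ v := fun he => hx (he ▸ hv)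
    have hπv' : π v v' ∈ U := (hS v hv v' hne.symm).mpr hv'
    rw [hK (π v x) (hπ x hx) (f y) (hf y hy) (π v v') hπv', hH.adj v x v' hxv hne.symm]
    exact hG x hx v' hv' y hy
  refine ⟨Equiv.ofBijective _ (Finite.injective_iff_bijective.mp hinj), fun x y => ?_⟩
  show H.Adj (if x ∈ U then f x else π v x) (if y ∈ U then f y else π v y) ↔ G.Adj x y
  by_cases hx : x ∈ U
  · rw [if_pos hx]
    by_cases hy : y ∈ U
    · rw [if_pos hy]
      exact h4 x hx y hy
    · rw [if_neg hy, H.adj_comm, G.adj_comm]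
      exact cross y x hy hx
  · rw [if_neg hx]
    have hxv : x ≠ v := fun he => hx (he ▸ hv)
    by_cases hy : y ∈ U
    · rw [if_pos hy]
      exact cross x y hx hy
    · rw [if_neg hy]
      have hyv : y ≠ v := fun he => hy (he ▸ hv)
      exact hH.adj v x y hxv hyv

/-- the restricted permutations -/
noncomputable def rs (π : V → Equiv.Perm V) (U : Finset V)
    (h : ∀ v ∈ U, ∀ x, π v x ∈ U ↔ x ∈ U) : {x // x ∈ U} → Equiv.Perm {x // x ∈ U} :=
  fun v => (π v.1).subtypePerm (h v.1 v.2)

theorem sub_all (hH : Hypo G H π) {U : Finset V} (hS : Sub π U) : ∀ v ∈ U, ∀ x,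
    π v x ∈ U ↔ x ∈ U := by
  intro v hv x
  by_cases hx : x = v
  · rw [hx, hH.fix]
  · exact hS v hv x hx

theorem hypo_rs (hH : Hypo G H π) {U : Finset V} (hS : Sub π U) :
    Hypo (G.comap (fun x : {x // x ∈ U} => x.1)) (H.comap (fun x : {x // x ∈ U} => x.1))
      (rs π U (sub_all hH hS)) := by
  refine ⟨fun v => ?_, fun v x y hx hy => ?_⟩
  · apply Subtype.ext
    exact hH.fix v.1
  · exact hH.adj v.1 x.1 y.1 (fun h => hx (Subtype.ext h)) (fun h => hy (Subtype.ext h))

theorem rl_of_sub {U : Finset V} (h : ∃ σ : Equiv.Perm {x // x ∈ U}, ∀ x y,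
    (H.comap (fun x : {x // x ∈ U} => x.1)).Adj (σ x) (σ y) ↔
      (G.comap (fun x : {x // x ∈ U} => x.1)).Adj x y) : Rl (U, G.Adj) (U, H.Adj) := by
  obtain ⟨σ, hσ⟩ := h
  refine ⟨fun x => if hx : x ∈ U then (σ ⟨x, hx⟩).1 else x, ?_, ?_, ?_⟩
  · intro x hx y hy hxy
    simp only at hx hy hxy
    rw [dif_pos hx, dif_pos hy] at hxy
    have := σ.injective (Subtype.ext hxy)
    exact congrArg Subtype.val this
  · ext y
    simp only [mem_image]
    constructor
    · rintro ⟨x, hx, rfl⟩
      rw [dif_pos hx]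
      exact (σ ⟨x, hx⟩).2
    · intro hy
      refine ⟨(σ.symm ⟨y, hy⟩).1, (σ.symm ⟨y, hy⟩).2, ?_⟩
      rw [dif_pos (σ.symm ⟨y, hy⟩).2]
      simp
  · intro x hx y hy
    simp only at hx hy ⊢
    rw [dif_pos hx, dif_pos hy]
    exact hσ ⟨x, hx⟩ ⟨y, hy⟩

/-- the large class of a prime partition is preserved by the card isomorphisms -/
theorem step (hH : Hypo G H π) {U : Finset V} (hS : Sub π U) {p : V → ι} (hP : PM G U p)
    (c : ι) (hc : U.card + 3 ≤ 2 * (U.filter (fun x => p x = c)).card) :
    Sub π (U.filter (fun x => p x = c)) ∧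
      ∀ z ∈ U, z ∉ U.filter (fun x => p x = c) → ∀ x ∈ U.filter (fun x => p x = c),
        ∀ y ∈ U.filter (fun x => p x = c), (H.Adj z x ↔ H.Adj z y) := by
  set N := U.filter (fun x => p x = c) with hN
  have hNU : N ⊆ U := filter_subset _ _
  obtain ⟨m, hm⟩ : ∃ m, N.card = m := ⟨_, rfl⟩
  rw [hm] at hc
  have hmU : m ≤ U.card := by rw [← hm]; exact card_le_card hNU
  -- at least two vertices outside
  have hr2 : m + 2 ≤ U.card := by
    obtain ⟨a, ha, b, hb, d, hd, hab, had, hbd⟩ := hP.th
    have h2 : ∃ x ∈ U, ∃ y ∈ U, p x ≠ c ∧ p y ≠ c ∧ p x ≠ p y := by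
      by_cases h3 : p a = c
      · exact ⟨b, hb, d, hd, fun h => hab (h3.trans h.symm), fun h => had (h3.trans h.symm), hbd⟩
      · by_cases h4 : p b = c
        · exact ⟨a, ha, d, hd, h3, fun h => hbd (h4.trans h.symm), had⟩
        · exact ⟨a, ha, b, hb, h3, h4, hab⟩
    obtain ⟨x, hx, y, hy, hxc, hyc, hxy⟩ := h2
    have h5 : insert x (insert y N) ⊆ U := by
      intro z hz
      rcases mem_insert.mp hz with rfl | hz
      · exact hx
      · rcases mem_insert.mp hz with rfl | hz
        · exact hy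
        · exact hNU hz
    have h6 := card_le_card h5
    rw [card_insert_of_notMem, card_insert_of_notMem, hm] at h6
    · omega
    · intro h
      exact hyc (mem_filter.mp h).2
    · intro h
      rcases mem_insert.mp h with h | h
      · exact hxy (by rw [h])
      · exact hxc (mem_filter.mp h).2
  -- the partitions of the cards
  have hpm : ∀ v ∈ N, PM H (U.erase v) (pv π p v) := by
    intro v hv
    obtain ⟨v', hv', hne⟩ := exists_mem_ne (show 1 < N.card by omega) v
    have h3 := hP.del v v' (hNU hv) (hNU hv') hne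
      ((mem_filter.mp hv').2.trans (mem_filter.mp hv).2.symm)
    refine h3.map (π v) (U.erase v) (fun x => sub_erase hH hS v (hNU hv) x)
      (fun x hx y hy => ?_)
    exact hH.adj v x y (mem_erase.mp hx).1 (mem_erase.mp hy).1
  set NN : V → Finset V := fun v => (U.erase v).filter (fun x => pv π p v x = c) with hNN
  have memNN : ∀ v x, x ∈ NN v ↔ x ≠ v ∧ x ∈ U ∧ pv π p v x = c := by
    intro v x
    rw [hNN]
    simp only [mem_filter, mem_erase]
    tauto
  have cardNN : ∀ v ∈ N, (NN v).card = m - 1 := by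
    intro v hv
    rw [← hm, ← card_erase_of_mem hv, ← card_map (π v).toEmbedding (s := N.erase v)]
    congr 1
    ext x
    rw [memNN, mem_map]
    constructor
    · rintro ⟨h1, h3, h4⟩
      refine ⟨(π v).symm x, ?_, by simp⟩
      rw [mem_erase, hN, mem_filter]
      have h5 : (π v).symm x ≠ v := (hypo_symm_ne hH v x).mpr h1
      refine ⟨h5, ?_, h4⟩
      have := (hS v (hNU hv) ((π v).symm x) h5).mp
      rw [Equiv.apply_symm_apply] at this
      exact this h3
    · rintro ⟨y, hy, rfl⟩
      rw [mem_erase, hN, mem_filter] at hy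
      refine ⟨(hypo_ne hH v y).mpr hy.1, (hS v (hNU hv) y hy.1).mpr hy.2.1, ?_⟩
      show p ((π v).symm (π v y)) = c
      rw [Equiv.symm_apply_apply]
      exact hy.2.2
  -- the other classes are small
  have small : ∀ v ∈ N, ∀ d, d ≠ c → ∀ S : Finset V, S ⊆ U.erase v →
      (∀ x ∈ S, pv π p v x = d) → S.card + m ≤ U.card := by
    intro v hv d hd S hSU hSd
    have h1 : Disjoint S (NN v) := by
      rw [Finset.disjoint_left]
      intro x hx hx'
      exact hd ((hSd x hx).symm.trans ((memNN v x).mp hx').2.2)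
    have h3 := card_union_of_disjoint h1
    have h4 : S ∪ NN v ⊆ U.erase v := union_subset hSU (filter_subset _ _)
    have h5 := card_le_card h4
    rw [h3, cardNN v hv, card_erase_of_mem (hNU hv)] at h5
    omega
  -- two cards
  have key : ∀ u ∈ N, ∀ v ∈ N, v ∈ NN u → u ∈ NN v ∧
      (NN v).erase u = (NN u).erase v := by
    intro u hu v hv hvu
    have hvne : v ≠ u := ((memNN u v).mp hvu).1
    obtain ⟨v', hv', hne⟩ := exists_mem_ne (show 1 < (NN u).card by
      rw [cardNN u hu]; omega) v
    have hv'' := (memNN u v').mp hv'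
    have hpmu := (hpm u hu).del v v' (mem_erase.mpr ⟨hvne, hNU hv⟩)
      (mem_erase.mpr ⟨hv''.1, hv''.2.1⟩) hne (hv''.2.2.trans ((memNN u v).mp hvu).2.2.symm)
    have hpmv := hpm v hv
    have href := refines hpmu (pv π p v) (by
      intro x hx y hy z hz
      exact hpmv.mp x (mem_erase.mpr ⟨(mem_erase.mp hx).1, (mem_erase.mp (mem_erase.mp hx).2).2⟩) y
        (mem_erase.mpr ⟨(mem_erase.mp hy).1, (mem_erase.mp (mem_erase.mp hy).2).2⟩) z
        (mem_erase.mpr ⟨(mem_erase.mp hz).1, (mem_erase.mp (mem_erase.mp hz).2).2⟩)) (by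
      obtain ⟨a, ha, b, hb, d, hd, hab, hac, hbc⟩ := hpmv.th
      have mk : ∀ a ∈ U.erase v, a ≠ u → a ∈ (U.erase u).erase v := fun a ha hau =>
        mem_erase.mpr ⟨(mem_erase.mp ha).1, mem_erase.mpr ⟨hau, (mem_erase.mp ha).2⟩⟩
      by_cases hau : a = u
      · have hbu : b ≠ u := fun hb => hab (by rw [hau, hb])
        have hcu : d ≠ u := fun hc => hac (by rw [hau, hc])
        exact ⟨b, mk b hb hbu, d, mk d hd hcu, hbc⟩
      · by_cases hbu : b = u
        · have hcu : d ≠ u := fun hc => hbc (by rw [hbu, hc])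
          exact ⟨a, mk a ha hau, d, mk d hd hcu, hac⟩
        · exact ⟨a, mk a ha hau, b, mk b hb hbu, hab⟩)
    have hsub : ∀ x ∈ (NN v).erase u, x ∈ (U.erase u).erase v := by
      intro x hx
      rw [mem_erase, memNN] at hx
      exact mem_erase.mpr ⟨hx.2.1, mem_erase.mpr ⟨hx.1, hx.2.2.1⟩⟩
    have hcard1 : m - 2 ≤ ((NN v).erase u).card := by
      have h1 : (NN v).card - 1 ≤ ((NN v).erase u).card := pred_card_le_card_erase
      rw [cardNN v hv] at h1
      omega
    obtain ⟨x0, hx0⟩ : ((NN v).erase u).Nonempty := card_pos.mp (by omega)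
    have hlab : ∀ x ∈ (NN v).erase u, pv π p u x = pv π p u x0 := by
      intro x hx
      apply href x (hsub x hx) x0 (hsub x0 hx0)
      rw [((memNN v x).mp (mem_erase.mp hx).2).2.2, ((memNN v x0).mp (mem_erase.mp hx0).2).2.2]
    have hx0c : pv π p u x0 = c := by
      by_contra hd
      have h1 := small u hu _ hd ((NN v).erase u) (fun x hx => (mem_erase.mp (hsub x hx)).2) hlab
      omega
    have hsub2 : (NN v).erase u ⊆ (NN u).erase v := by
      intro x hx
      have h1 := hsub x hx
      rw [mem_erase, mem_erase] at h1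
      rw [mem_erase, memNN]
      exact ⟨h1.1, h1.2.1, h1.2.2, (hlab x hx).trans hx0c⟩
    have hcard2 : ((NN u).erase v).card = m - 2 := by
      rw [card_erase_of_mem hvu, cardNN u hu]
      omega
    have heq : (NN v).erase u = (NN u).erase v :=
      eq_of_subset_of_card_le hsub2 (by rw [hcard2]; exact hcard1)
    refine ⟨?_, heq⟩
    by_contra hcon
    rw [erase_eq_of_notMem hcon] at heq
    have h1 := cardNN v hv
    rw [heq, hcard2] at h1
    omega
  -- the extended classes
  have hins : ∀ u ∈ N, ∀ v ∈ N, v ∈ NN u → insert v (NN v) = insert u (NN u) := by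
    intro u hu v hv hvu
    obtain ⟨h1, h3⟩ := key u hu v hv hvu
    have e1 : insert v (NN v) = insert v (insert u ((NN v).erase u)) := by
      rw [insert_erase h1]
    have e2 : insert u (NN u) = insert u (insert v ((NN u).erase v)) := by
      rw [insert_erase hvu]
    rw [e1, e2, h3, Finset.insert_comm]
  have hcardi : ∀ u ∈ N, (insert u (NN u)).card = m := by
    intro u hu
    rw [card_insert_of_notMem, cardNN u hu]
    · omega
    · intro h
      exact ((memNN u u).mp h).1 rfl
  have hiU : ∀ u ∈ N, insert u (NN u) ⊆ U := by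
    intro u hu x hx
    rcases mem_insert.mp hx with rfl | hx
    · exact hNU hu
    · exact ((memNN u x).mp hx).2.1
  have hthree : ∀ u ∈ N, 3 ≤ (N ∩ insert u (NN u)).card := by
    intro u hu
    have h1 := card_union_add_card_inter N (insert u (NN u))
    have h3 : (N ∪ insert u (NN u)).card ≤ U.card := card_le_card (union_subset hNU (hiU u hu))
    rw [hm, hcardi u hu] at h1
    omega
  have hmodi : ∀ u ∈ N, ∀ z ∈ U, z ∉ insert u (NN u) → ∀ x ∈ insert u (NN u),
      ∀ y ∈ insert u (NN u), (H.Adj z x ↔ H.Adj z y) := by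
    intro u hu z hz hzn x hx y hy
    obtain ⟨w, hw, hwx, hwy⟩ : ∃ w ∈ N ∩ insert u (NN u), w ≠ x ∧ w ≠ y := by
      by_contra hcon
      push Not at hcon
      have h1 : N ∩ insert u (NN u) ⊆ {x, y} := by
        intro w hw
        rw [mem_insert, mem_singleton]
        by_cases hwx : w = x
        · exact Or.inl hwx
        · exact Or.inr (hcon w hw hwx)
      have h3 := card_le_card h1
      have h4 := card_le_two (a := x) (b := y)
      have h5 := hthree u hu
      omega
    rw [mem_inter] at hw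
    have hwe : insert w (NN w) = insert u (NN u) := by
      rcases mem_insert.mp hw.2 with h | h
      · rw [h]
      · exact hins u hu w hw.1 h
    rw [← hwe] at hx hy hzn
    have hx' := (memNN w x).mp ((mem_insert.mp hx).resolve_left hwx.symm)
    have hy' := (memNN w y).mp ((mem_insert.mp hy).resolve_left hwy.symm)
    have hzw : z ≠ w := fun h => hzn (h ▸ mem_insert_self _ _)
    have hz' : pv π p w z ≠ c := fun h =>
      hzn (mem_insert_of_mem ((memNN w z).mpr ⟨hzw, hz, h⟩))
    exact (hpm w hw.1).mp x (mem_erase.mpr ⟨hx'.1, hx'.2.1⟩) y (mem_erase.mpr ⟨hy'.1, hy'.2.1⟩) z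
      (mem_erase.mpr ⟨hzw, hz⟩) (hx'.2.2.trans hy'.2.2.symm) (by rw [hx'.2.2]; exact hz')
  have hNi : ∀ u ∈ N, insert u (NN u) = N := by
    intro u hu
    symm
    apply eq_of_subset_of_card_le _ (by rw [hcardi u hu, hm])
    intro v hv
    by_contra hvn
    have hmem : insert u (NN u) ⊆ U.erase v := by
      intro x hx
      exact mem_erase.mpr ⟨fun h => hvn (h ▸ hx), hiU u hu hx⟩
    obtain ⟨z0, hz0, hz0n⟩ : ∃ z0 ∈ U.erase v, z0 ∉ insert u (NN u) := by
      by_contra hcon
      push Not at hcon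
      have h1 : U.erase v ⊆ insert u (NN u) := hcon
      have h3 := card_le_card h1
      rw [card_erase_of_mem (hNU hv), hcardi u hu] at h3
      omega
    have h1 := in_class (hpm v hv) (insert u (NN u)) hmem
      (fun x hx y hy z hz hzn => hmodi u hu z (mem_erase.mp hz).2 hzn x hx y hy) z0 hz0 hz0n
    have hlab : ∀ x ∈ insert u (NN u), pv π p v x = pv π p v u := fun x hx =>
      h1 x hx u (mem_insert_self _ _)
    by_cases hd : pv π p v u = c
    · have h3 : insert u (NN u) ⊆ NN v := by
        intro x hx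
        have h4 := mem_erase.mp (hmem hx)
        exact (memNN v x).mpr ⟨h4.1, h4.2, (hlab x hx).trans hd⟩
      have h4 := card_le_card h3
      rw [hcardi u hu, cardNN v hv] at h4
      omega
    · have h3 := small v hv _ hd _ hmem hlab
      rw [hcardi u hu] at h3
      omega
  have hNN2 : ∀ u ∈ N, ∀ x, x ≠ u → (x ∈ NN u ↔ x ∈ N) := by
    intro u hu x hx
    rw [← hNi u hu, mem_insert]
    constructor
    · intro h
      exact Or.inr h
    · intro h
      exact h.resolve_left hx
  obtain ⟨u0, hu0⟩ : N.Nonempty := card_pos.mp (by omega)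
  refine ⟨?_, ?_⟩
  · intro u hu x hx
    rw [← hNN2 u hu (π u x) ((hypo_ne hH u x).mpr hx), memNN, hN, mem_filter]
    have e1 : pv π p u (π u x) = p x := by
      show p ((π u).symm (π u x)) = p x
      rw [Equiv.symm_apply_apply]
    rw [e1, hS u (hNU hu) x hx, hypo_ne hH u x]
    tauto
  · intro z hz hzn x hx y hy
    have h1 := hmodi u0 hu0 z hz
    rw [hNi u0 hu0] at h1
    exact h1 hzn x hx y hy

/-- a large module which induces a reconstructible graph -/
theorem large_iso (hH : Hypo G H π) (M : Finset V) (hM : Md G M)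
    (hcard : Fintype.card V + 3 ≤ 2 * M.card)
    (hrec : Reconstructible (G.comap (fun x : {x // x ∈ M} => x.1))) :
    ∃ σ : Equiv.Perm V, ∀ x y, H.Adj (σ x) (σ y) ↔ G.Adj x y := by
  have hMu : M.card ≤ Fintype.card V := by
    rw [← card_univ]
    exact card_le_card (subset_univ _)
  obtain ⟨U, hU, hUmin⟩ := exists_min_image
    (univ.filter (fun U : Finset V => M ⊆ U ∧ Md G U ∧ Md H U ∧ Sub π U)) (fun U => U.card)
    ⟨univ, mem_filter.mpr ⟨mem_univ _, subset_univ _, fun z hz => absurd (mem_univ z) hz,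
      fun z hz => absurd (mem_univ z) hz, fun v _ x _ => by simp⟩⟩
  rw [mem_filter] at hU
  obtain ⟨_, hMU, hGU, hHU, hSU⟩ := hU
  have hMcard := card_le_card hMU
  have hUcard : U.card ≤ Fintype.card V := by
    rw [← card_univ]
    exact card_le_card (subset_univ _)
  by_cases hUM : U = M
  · subst hUM
    exact iso_ext hH hSU hGU hHU (by omega)
      (rl_of_sub (iso_of_rec hrec (hypo_rs hH hSU)))
  · obtain ⟨m0, hm0⟩ : M.Nonempty := card_pos.mp (by omega)
    obtain ⟨z1, hz1, hz1M⟩ : ∃ z ∈ U, z ∉ M := by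
      by_contra hcon
      push Not at hcon
      exact hUM (Subset.antisymm hcon hMU)
    obtain ⟨p, hp1, hp2, ⟨a, ha, b, hb, hab⟩, hp3⟩ := exists_prime_rel G U M hMU
      (fun x hx y hy z _ hzM => hM z hzM x hx y hy) m0 hm0 ⟨z1, hz1, hz1M⟩
    by_cases hT : Th U p
    · exfalso
      have hPM : PM G U p := ⟨hp1, hp3, hT⟩
      have hMN : M ⊆ U.filter (fun x => p x = p m0) := fun x hx =>
        mem_filter.mpr ⟨hMU hx, hp2 x hx m0 hm0⟩
      have hMN' := card_le_card hMN
      obtain ⟨hS', hH'⟩ := step hH hSU hPM (p m0) (by omega)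
      set N := U.filter (fun x => p x = p m0) with hN
      have hNmem : N ∈ univ.filter (fun U : Finset V => M ⊆ U ∧ Md G U ∧ Md H U ∧ Sub π U) := by
        refine mem_filter.mpr ⟨mem_univ _, hMN, ?_, ?_, hS'⟩
        · intro z hz x hx y hy
          by_cases hzU : z ∈ U
          · have hx' := mem_filter.mp hx
            have hy' := mem_filter.mp hy
            exact hp1 x hx'.1 y hy'.1 z hzU (hx'.2.trans hy'.2.symm) (fun h =>
              hz (mem_filter.mpr ⟨hzU, h.trans hx'.2⟩))
          · exact hGU z hzU x (mem_filter.mp hx).1 y (mem_filter.mp hy).1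
        · intro z hz x hx y hy
          by_cases hzU : z ∈ U
          · exact hH' z hzU hz x hx y hy
          · exact hHU z hzU x (mem_filter.mp hx).1 y (mem_filter.mp hy).1
      have h1 := hUmin N hNmem
      have h3 : N = U := eq_of_subset_of_card_le (filter_subset _ _) h1
      have h4 : ∀ x ∈ U, p x = p m0 := by
        intro x hx
        rw [← h3] at hx
        exact (mem_filter.mp hx).2
      exact hab ((h4 a ha).trans (h4 b hb).symm)
    · -- two classes
      have htwo : ∀ x ∈ U, p x = p a ∨ p x = p b := by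
        intro x hx
        by_contra hcon
        push Not at hcon
        exact hT ⟨a, ha, b, hb, x, hx, hab, hcon.1.symm, hcon.2.symm⟩
      refine iso_ext hH hSU hGU hHU (by omega) (rl_of_sub ?_)
      refine two_classes (hypo_rs hH hSU) (by rw [Fintype.card_coe]; omega)
        (fun x : {x // x ∈ U} => p x.1) ?_ ⟨a, ha⟩ ⟨b, hb⟩ hab (fun x => htwo x.1 x.2)
      intro x _ y _ z _ hxy hzx
      exact hp1 x.1 x.2 y.1 y.2 z.1 z.2 hxy hzx

end

/-- the theorem for truncated clique lattices -/
theorem large_main (G : SimpleGraph V) (M : Finset V) (hM : Md G M)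
    (hcard : Fintype.card V + 3 ≤ 2 * M.card)
    (hrec : Reconstructible (G.comap (fun x : {x // x ∈ M} => x.1))) :
    Reconstructible G ∧ Reconstructible Gᶜ :=
  rec_of G True (fun _ _ hH hN _ => hN (large_iso hH M hM hcard hrec)) trivial

end Pool.Agent.R553.Mod
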