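import Pool.Agent.R553.Mod.Core
import Pool.Agent.TH87.RVP.Fin

/-!
# Graphs partitioned into nontrivial modules are reconstructible
-/

set_option autoImplicit false
set_option linter.unusedSectionVars false

namespace Pool.Agent.R553.Mod

open Finset Classical
open Pool.Agent.H234RC (Hypo NonIso Reconstructible)
open Pool.Agent.TH87.RVE (rec_of)
open Pool.Agent.TH87.RVP (disc_iso)

variable {V : Type} [Fintype V] {ι : Type}

/-- a coarsest partition into nontrivial modules is prime -/
theorem exists_prime (G : SimpleGraph V) (f : V → ι) (hf : MP G univ f) (h2 : Two f)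
    (hne : ∃ a b, f a ≠ f b) :
    ∃ p : V → ι, MP G univ p ∧ Two p ∧ (∃ a b, p a ≠ p b) ∧ Pr G univ p := by
  have hex : ∃ k, ∃ p : V → ι, (MP G univ p ∧ Two p ∧ ∃ a b, p a ≠ p b) ∧
      (univ.image p).card = k := ⟨_, f, ⟨hf, h2, hne⟩, rfl⟩
  obtain ⟨p, ⟨hp1, hp2, hp3⟩, hpk⟩ := Nat.find_spec hex
  have hmin : ∀ p' : V → ι, (MP G univ p' ∧ Two p' ∧ ∃ a b, p' a ≠ p' b) →
      (univ.image p).card ≤ (univ.image p').card := by
    intro p' hp'
    rw [hpk]
    exact Nat.find_min' hex ⟨p', hp', rfl⟩
  refine ⟨p, hp1, hp2, hp3, ?_⟩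
  intro A _ hsat hmod
  by_contra hcon
  push Not at hcon
  obtain ⟨⟨x0, hx0, y0, hy0, hxy0⟩, hAU⟩ := hcon
  obtain ⟨z0, hz0⟩ : ∃ z, z ∉ A := by
    by_contra h
    push Not at h
    exact hAU (eq_univ_of_forall h)
  have hsat' : ∀ x y, x ∈ A → y ∉ A → p x ≠ p y := fun x y hx hy he =>
    hy (hsat x hx y (mem_univ _) he)
  set p' : V → ι := fun x => if x ∈ A then p x0 else p x with hp'
  have pin : ∀ x, x ∈ A → p' x = p x0 := fun x hx => if_pos hx
  have pout : ∀ x, x ∉ A → p' x = p x := fun x hx => if_neg hx
  have hgood : MP G univ p' ∧ Two p' ∧ ∃ a b, p' a ≠ p' b := by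
    refine ⟨?_, ?_, ?_⟩
    · intro x _ y _ z _ hxy hzx
      by_cases hx : x ∈ A
      · have hy : y ∈ A := by
          by_contra hy
          rw [pin x hx, pout y hy] at hxy
          exact hsat' x0 y hx0 hy hxy
        have hz : z ∉ A := by
          intro hz
          rw [pin x hx, pin z hz] at hzx
          exact hzx rfl
        exact hmod x hx y hy z (mem_univ _) hz
      · have hy : y ∉ A := by
          intro hy
          rw [pout x hx, pin y hy] at hxy
          exact hsat' x0 x hx0 hx hxy.symm
        rw [pout x hx, pout y hy] at hxy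
        rw [pout x hx] at hzx
        have hz : p z ≠ p x := by
          by_cases hz : z ∈ A
          · exact hsat' z x hz hx
          · rw [pout z hz] at hzx
            exact hzx
        exact hp1 x (mem_univ _) y (mem_univ _) z (mem_univ _) hxy hz
    · intro x
      obtain ⟨y, hy1, hy2⟩ := hp2 x
      refine ⟨y, hy1, ?_⟩
      by_cases hx : x ∈ A
      · rw [pin x hx, pin y (hsat x hx y (mem_univ _) hy2.symm)]
      · have hy : y ∉ A := fun hy => hx (hsat y hy x (mem_univ _) hy2)
        rw [pout x hx, pout y hy, hy2]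
    · refine ⟨z0, x0, ?_⟩
      rw [pin x0 hx0, pout z0 hz0]
      exact (hsat' x0 z0 hx0 hz0).symm
  have h1 := hmin p' hgood
  have h2 : (univ.image p').card < (univ.image p).card := by
    apply card_lt_card
    rw [ssubset_iff_of_subset]
    · refine ⟨p y0, mem_image_of_mem p (mem_univ _), fun h3 => ?_⟩
      obtain ⟨z, _, hz⟩ := mem_image.mp h3
      by_cases hzA : z ∈ A
      · rw [pin z hzA] at hz
        exact hxy0 hz
      · rw [pout z hzA] at hz
        exact hsat' y0 z hy0 hzA hz.symm
    · intro a ha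
      obtain ⟨z, _, rfl⟩ := mem_image.mp ha
      by_cases hzA : z ∈ A
      · rw [pin z hzA]
        exact mem_image_of_mem p (mem_univ _)
      · rw [pout z hzA]
        exact mem_image_of_mem p (mem_univ _)
  omega

theorem compl_iso {G H : SimpleGraph V} {π : V → Equiv.Perm V} (hH : Hypo G H π) :
    Hypo Gᶜ Hᶜ π := by
  refine ⟨hH.fix, fun v x y hx hy => ?_⟩
  rw [SimpleGraph.compl_adj, SimpleGraph.compl_adj, hH.adj v x y hx hy, (π v).injective.ne_iff]

/-- graphs partitioned into nontrivial modules are reconstructible -/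
theorem main (G : SimpleGraph V) (f : V → ι) (hf : ∀ x y z, f x = f y → f z ≠ f x →
      (G.Adj z x ↔ G.Adj z y))
    (h2 : ∀ x, ∃ y, y ≠ x ∧ f y = f x) (hne : ∃ a b, f a ≠ f b) :
    Reconstructible G ∧ Reconstructible Gᶜ := by
  refine rec_of G True (fun H π hH hN _ => hN ?_) trivial
  obtain ⟨p, hp1, hp2, ⟨a, b, hab⟩, hp3⟩ := exists_prime G f
    (fun x _ y _ z _ => hf x y z) h2 hne
  by_cases hT : Th univ p
  · exact iso_of_setup (setup hH ⟨hp1, hp3, hT⟩ hp2)
  · -- two classes
    have htwo : ∀ x, p x = p a ∨ p x = p b := by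
      intro x
      by_contra hcon
      push Not at hcon
      exact hT ⟨a, mem_univ _, b, mem_univ _, x, mem_univ _, hab, hcon.1.symm, hcon.2.symm⟩
    have h3 : 3 ≤ Fintype.card V := by
      obtain ⟨a', ha1, ha2⟩ := hp2 a
      have h : ({a, a', b} : Finset V).card = 3 := by
        rw [card_insert_of_notMem, card_insert_of_notMem, card_singleton]
        · rw [mem_singleton]
          rintro rfl
          exact hab ha2.symm
        · rw [mem_insert, mem_singleton, not_or]
          exact ⟨ha1.symm, fun h => hab (by rw [h])⟩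
      rw [← h]
      exact card_le_univ _
    have hcross : ∀ x y, p x = p a → p y ≠ p a → (G.Adj x y ↔ G.Adj a b) := by
      intro x y hx hy
      have hy' : p y = p b := (htwo y).resolve_left hy
      have e1 := hp1 x (mem_univ _) a (mem_univ _) y (mem_univ _) hx (by rw [hx]; exact hy)
      have e2 := hp1 y (mem_univ _) b (mem_univ _) a (mem_univ _) hy' (by
        rw [hy']; exact hab)
      rw [G.adj_comm x y, e1, G.adj_comm y a, e2]
    by_cases hadj : G.Adj a b
    · have hc := compl_iso hH
      obtain ⟨σ, hσ⟩ := disc_iso hc h3 (univ.filter (fun x => p x = p a))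
        ⟨a, mem_filter.mpr ⟨mem_univ _, rfl⟩⟩
        ⟨b, fun h => hab (mem_filter.mp h).2.symm⟩
        (by
          intro x hx y hy hxy
          rw [SimpleGraph.compl_adj] at hxy
          exact hxy.2 ((hcross x y (mem_filter.mp hx).2
            (fun h => hy (mem_filter.mpr ⟨mem_univ _, h⟩))).mpr hadj))
      refine ⟨σ, fun x y => ?_⟩
      have := hσ x y
      rw [SimpleGraph.compl_adj, SimpleGraph.compl_adj, σ.injective.ne_iff] at this
      by_cases hxy : x = y
      · subst hxy
        simp
      · have h4 : (¬ H.Adj (σ x) (σ y)) ↔ ¬ G.Adj x y := by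
          constructor
          · intro h5
            exact (this.mp ⟨hxy, h5⟩).2
          · intro h5
            exact (this.mpr ⟨hxy, h5⟩).2
        exact not_iff_not.mp h4
    · exact disc_iso hH h3 (univ.filter (fun x => p x = p a))
        ⟨a, mem_filter.mpr ⟨mem_univ _, rfl⟩⟩
        ⟨b, fun h => hab (mem_filter.mp h).2.symm⟩
        (by
          intro x hx y hy hxy
          exact hadj ((hcross x y (mem_filter.mp hx).2
            (fun h => hy (mem_filter.mpr ⟨mem_univ _, h⟩))).mp hxy))

end Pool.Agent.R553.Mod
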